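import Pool.Agent.H34.OP.Glue
import Pool.Agent.H19.OD.Main

/-!
# The group theory in the form used by the descent theorem
-/

open Matrix Subgroup

namespace Pool.Agent.H34.OP

open Classical in
/-- **Gluing**, for representations of subgroups given as homomorphisms. -/
theorem glue (Γ : Type*) [Group Γ] (F : Type*) [Field F] (n : ℕ) (ι : Type*) :
    Pool.Agent.H19.OD.Glue Γ F n ι := by
  intro Bas norm dir H hH cop ρ δ det tr i0 irr
  rcases Nat.eq_zero_or_pos n with rfl | hn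
  · -- everything is trivial
    have hsub : ∀ A B : GL (Fin 0) F, A = B := by
      intro A B
      ext i
      exact Fin.elim0 i
    have hH1 : ∀ i (x : Γ), x ∈ H i → δ x = 1 := by
      intro i x hx
      rw [← det i ⟨x, hx⟩, hsub (ρ i ⟨x, hx⟩) 1, map_one]
    have hall : ∀ g, δ g = 1 := by
      intro g
      obtain ⟨U, hU, hU0⟩ := hH i0
      have := norm U hU
      obtain ⟨i, -, h1⟩ := cop U hU
      rw [Nat.coprime_zero_right, Subgroup.index_eq_one] at h1
      have hg : g ∈ H i ⊔ U := by rw [h1]; exact Subgroup.mem_top g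
      obtain ⟨a, ha, b, hb, rfl⟩ := Subgroup.mem_sup_of_normal_right.mp hg
      rw [map_mul, hH1 i a ha, hH1 i0 b (hU0 hb), one_mul]
    refine ⟨1, fun g => ?_, fun i => ⟨1, fun x => hsub _ _⟩, fun τ _ _ => ⟨1, fun g => hsub _ _⟩⟩
    rw [hall g, MonoidHom.one_apply, map_one]
  · let r : ι → Γ → GL (Fin n) F := fun i x => if h : x ∈ H i then ρ i ⟨x, h⟩ else 1
    have hr : ∀ i x (h : x ∈ H i), r i x = ρ i ⟨x, h⟩ := fun i x h => dif_pos h
    have D : Fam Bas H r δ i0 := by
      refine ⟨norm, dir, hH, cop, ?_, ?_, ?_, ?_⟩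
      · intro i g hg h hh
        rw [hr i _ ((H i).mul_mem hg hh), hr i g hg, hr i h hh, ← map_mul]
        rfl
      · intro i x hx
        rw [hr i x hx]
        exact det i ⟨x, hx⟩
      · intro i j g x hx hy
        rw [hr i x hx, hr j _ hy]
        exact tr i j g ⟨x, hx⟩ ⟨_, hy⟩ rfl
      · intro U hU hU0
        have h1 := irr U hU hU0
        have h2 : {X | ∃ u ∈ U, X = (r i0 u : Matrix (Fin n) (Fin n) F)} =
            {X | ∃ u : H i0, (u : Γ) ∈ U ∧ X = (ρ i0 u).val} := by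
          ext X
          constructor
          · rintro ⟨u, hu, rfl⟩
            exact ⟨⟨u, hU0 hu⟩, hu, by rw [hr i0 u (hU0 hu)]⟩
          · rintro ⟨u, hu, rfl⟩
            exact ⟨u, hu, by rw [hr i0 u u.2]⟩
        show Submodule.span F _ = ⊤
        rw [h2]
        exact h1
    obtain ⟨σ, h1, h2⟩ := D.glue hn.ne'
    have key : ∀ τ : Γ →* GL (Fin n) F, (∀ i, ∃ T : GL (Fin n) F, ∀ x : H i, ρ i x = T * τ x * T⁻¹) →
        ∀ i, ∃ T : GL (Fin n) F, ∀ x ∈ H i, r i x = T * τ x * T⁻¹ := by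
      intro τ hτ i
      obtain ⟨T, hT⟩ := hτ i
      exact ⟨T, fun x hx => by rw [hr i x hx]; exact hT ⟨x, hx⟩⟩
    refine ⟨σ, h1, ?_, ?_⟩
    · intro i
      obtain ⟨T, hT⟩ := h2 i
      exact ⟨T, fun x => by rw [← hT x x.2, hr i x x.2]⟩
    · intro τ hτ1 hτ2
      exact D.unique hn.ne' σ τ h1 hτ1 h2 (key τ hτ2)

end Pool.Agent.H34.OP
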