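import Mathlib

/-!
# Characters on subgroups of index prime to the exponent

`G` is a group with a family `Bas` of normal subgroups, `H i` subgroups each containing a member of
`Bas`, such that for every `U` in `Bas` some `H i * U` has finite index prime to `k`. Homomorphisms
`H i →* A` into an abelian group of exponent `k` that take the same value on conjugate elements are
the restrictions of a unique homomorphism `G →* A`.
-/

open Subgroup

namespace Pool.Agent.H34.OP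

/-- cycle lemma -/
lemma cycle {G : Type*} [Group G] (H : Subgroup G) [H.FiniteIndex] {A : Type*} [CommGroup A]
    (x : G) (r : A) (h : ∀ (b : G) (m : ℕ), b⁻¹ * x ^ m * b ∈ H → r ^ m = 1) :
    r ^ H.index = 1 := by
  classical
  let _ := H.fintypeQuotientOfFiniteIndex
  rw [index_eq_sum_minimalPeriod H x, ← Finset.prod_pow_eq_pow_sum]
  apply Finset.prod_eq_one
  intro q _
  exact h _ _ (QuotientGroup.out_conj_pow_minimalPeriod_mem H x q.out)

lemma eq_one_of_coprime {A : Type*} [CommGroup A] {r : A} {a k : ℕ} (h : Nat.Coprime a k)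
    (h1 : r ^ a = 1) (h2 : r ^ k = 1) : r = 1 := by
  have h3 := orderOf_dvd_of_pow_eq_one h1
  have h4 := orderOf_dvd_of_pow_eq_one h2
  exact orderOf_eq_one_iff.mp (Nat.eq_one_of_dvd_coprimes h h3 h4)

/-- cycle lemma in the form in which it is used -/
lemma cycle_eq {G : Type*} [Group G] (H : Subgroup G) {k : ℕ} (hk : Nat.Coprime H.index k)
    (hf : H.index ≠ 0) {A : Type*} [CommGroup A]
    (x : G) (r s : A) (hr : r ^ k = 1) (hs : s ^ k = 1)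
    (h : ∀ (b : G) (m : ℕ), b⁻¹ * x ^ m * b ∈ H → r ^ m = s ^ m) :
    r = s := by
  have : H.FiniteIndex := ⟨hf⟩
  have h1 : (r * s⁻¹) ^ H.index = 1 := by
    apply cycle H x
    intro b m hb
    rw [mul_pow, inv_pow, h b m hb, mul_inv_cancel]
  have h2 : (r * s⁻¹) ^ k = 1 := by rw [mul_pow, inv_pow, hr, hs]; simp
  have h3 := eq_one_of_coprime hk h1 h2
  exact mul_inv_eq_one.mp h3

/-- a stable character of a subgroup of index prime to the exponent extends -/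
lemma exists_extend {G : Type*} [Group G] (H : Subgroup G) {k : ℕ} (hk : Nat.Coprime H.index k)
    (hf : H.index ≠ 0) {A : Type*} [CommGroup A] (φ : H →* A) (hA : ∀ x, φ x ^ k = 1)
    (hst : ∀ (g : G) (x y : H), (y : G) = g⁻¹ * x * g → φ y = φ x) :
    ∃ η : G →* A, (∀ g, η g ^ k = 1) ∧ ∀ x : H, η x = φ x := by
  classical
  have : H.FiniteIndex := ⟨hf⟩
  let _ := H.fintypeQuotientOfFiniteIndex
  have hbez := Nat.gcd_eq_gcd_ab H.index k
  rw [Nat.Coprime] at hk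
  rw [hk] at hbez
  set a := Nat.gcdA H.index k with ha
  set b := Nat.gcdB H.index k with hb
  refine ⟨(zpowGroupHom a).comp (MonoidHom.transfer φ), ?_, ?_⟩
  · intro g
    show ((MonoidHom.transfer φ g) ^ a) ^ k = 1
    rw [← zpow_natCast, ← zpow_mul, mul_comm, zpow_mul, zpow_natCast,
      MonoidHom.transfer_eq_prod_quotient_orbitRel_zpowers_quot, ← Finset.prod_pow]
    simp [hA]
  · intro x
    show (MonoidHom.transfer φ (x : G)) ^ a = φ x
    rw [MonoidHom.transfer_eq_prod_quotient_orbitRel_zpowers_quot]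
    have h1 : ∀ q : Quotient (MulAction.orbitRel (zpowers (x : G)) (G ⧸ H)),
        φ ⟨q.out.out⁻¹ * (x : G) ^ Function.minimalPeriod ((x : G) • ·) q.out * q.out.out,
            QuotientGroup.out_conj_pow_minimalPeriod_mem H x q.out⟩ =
          φ x ^ Function.minimalPeriod ((x : G) • ·) q.out := by
      intro q
      rw [← map_pow]
      apply hst q.out.out
      simp
    rw [Finset.prod_congr rfl (fun q _ => h1 q), Finset.prod_pow_eq_pow_sum,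
      ← index_eq_sum_minimalPeriod H (x : G), ← zpow_natCast, ← zpow_mul]
    have h2 : (H.index : ℤ) * a = 1 - k * b := by
      have : ((1 : ℕ) : ℤ) = H.index * a + k * b := hbez
      push_cast at this
      linarith
    rw [h2, zpow_sub, zpow_one, zpow_mul, zpow_natCast, hA, one_zpow, inv_one, mul_one]

section family

variable {G : Type*} [Group G] (Bas : Set (Subgroup G)) {ι : Type*} (H : ι → Subgroup G) (k : ℕ)
  {A : Type*} [CommGroup A]

/-- `e i` is a function on `G` that restricts to a homomorphism on `H i * N` trivial on `N`. -/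
structure Dat (N : Subgroup G) (ε : ∀ i, H i →* A) : Prop where
  norm : N.Normal
  one : ∀ i (x : H i), (x : G) ∈ N → ε i x = 1
  pow : ∀ i (x : H i), ε i x ^ k = 1
  st : ∀ i j (g : G) (x : H i) (y : H j), (y : G) = g * x * g⁻¹ → ε i x = ε j y

variable {H k}

open Classical in
/-- the extension of `ε i` to `H i * N` -/
noncomputable def ext (N : Subgroup G) (ε : ∀ i, H i →* A) (i : ι) (g : G) : A :=
  if h : ∃ x : H i, (x : G)⁻¹ * g ∈ N then ε i h.choose else 1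

variable {N : Subgroup G} {ε : ∀ i, H i →* A}

lemma Dat.ext_eq (D : Dat H k N ε) (i : ι) (g : G) (x : H i) (h : (x : G)⁻¹ * g ∈ N) :
    ext N ε i g = ε i x := by
  have hn := D.norm
  have hex : ∃ x : H i, (x : G)⁻¹ * g ∈ N := ⟨x, h⟩
  rw [ext, dif_pos hex]
  have h1 := hex.choose_spec
  set y := hex.choose
  have h2 : ((y⁻¹ * x : H i) : G) ∈ N := by
    have : ((y⁻¹ * x : H i) : G) = ((y : G)⁻¹ * g) * ((x : G)⁻¹ * g)⁻¹ := by
      push_cast
      group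
    rw [this]
    exact N.mul_mem h1 (N.inv_mem h)
  have h3 := D.one i _ h2
  rw [map_mul, map_inv, inv_mul_eq_one] at h3
  exact h3

lemma mem_sup_iff' {P Q : Subgroup G} [Q.Normal] (g : G) :
    g ∈ P ⊔ Q ↔ ∃ x : P, (x : G)⁻¹ * g ∈ Q := by
  rw [Subgroup.mem_sup_of_normal_right]
  constructor
  · rintro ⟨y, hy, z, hz, rfl⟩
    exact ⟨⟨y, hy⟩, by simpa using hz⟩
  · rintro ⟨x, hx⟩
    exact ⟨x, x.2, _, hx, by group⟩

/-- the extension as a homomorphism -/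
lemma Dat.exists_hom (D : Dat H k N ε) (i : ι) :
    ∃ φ : (H i ⊔ N : Subgroup G) →* A, (∀ x (h : x ∈ H i ⊔ N), φ ⟨x, h⟩ = ext N ε i x) := by
  have hn := D.norm
  refine ⟨MonoidHom.mk' (fun x => ext N ε i x) ?_, fun x h => rfl⟩
  intro a b
  obtain ⟨x, hx⟩ := (mem_sup_iff' (a : G)).mp a.2
  obtain ⟨y, hy⟩ := (mem_sup_iff' (b : G)).mp b.2
  have h3 : ((x * y : H i) : G)⁻¹ * ((a * b : (H i ⊔ N : Subgroup G)) : G) ∈ N := by
    have : ((x * y : H i) : G)⁻¹ * ((a * b : (H i ⊔ N : Subgroup G)) : G) =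
        ((y : G)⁻¹ * ((x : G)⁻¹ * a) * ((y : G)⁻¹)⁻¹) * ((y : G)⁻¹ * b) := by
      push_cast
      group
    rw [this]
    exact N.mul_mem (hn.conj_mem _ hx _) hy
  rw [D.ext_eq i _ _ hx, D.ext_eq i _ _ hy, D.ext_eq i _ _ h3, map_mul]

lemma Dat.ext_pow_card (D : Dat H k N ε) (i : ι) (g : G) : ext N ε i g ^ k = 1 := by
  by_cases h : ∃ x : H i, (x : G)⁻¹ * g ∈ N
  · obtain ⟨x, hx⟩ := h
    rw [D.ext_eq i g x hx, D.pow]
  · rw [ext, dif_neg h, one_pow]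

lemma Dat.ext_pow (D : Dat H k N ε) (i : ι) {g : G} (h : g ∈ H i ⊔ N) (m : ℕ) :
    ext N ε i (g ^ m) = ext N ε i g ^ m := by
  obtain ⟨φ, hφ⟩ := D.exists_hom i
  rw [← hφ g h, ← map_pow, ← hφ (g ^ m) ((H i ⊔ N).pow_mem h m)]
  rfl

/-- comparison of `H j` with `H l` for `l` deep -/
lemma Dat.compare (D : Dat H k N ε) {j l : ι} {U : Subgroup G} (hU : U.Normal)
    (hUN : U ≤ N) (hUj : U ≤ H j) (hi : (H l ⊔ U).index ≠ 0) (hc : Nat.Coprime (H l ⊔ U).index k)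
    (g : G) (x : H j) (hx : g * x * g⁻¹ ∈ H l ⊔ N) : ε j x = ext N ε l (g * x * g⁻¹) := by
  have hn := D.norm
  set y : G := g * x * g⁻¹ with hy
  set P : Subgroup (H l ⊔ N : Subgroup G) := (H l ⊔ U).subgroupOf (H l ⊔ N) with hP
  have hle : H l ⊔ U ≤ H l ⊔ N := sup_le_sup_left hUN _
  have hdvd : P.index ∣ (H l ⊔ U).index := relIndex_dvd_index_of_le hle
  have hP0 : P.index ≠ 0 := fun h => hi (by rw [h] at hdvd; exact Nat.eq_zero_of_zero_dvd hdvd)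
  have hPc : Nat.Coprime P.index k := Nat.Coprime.coprime_dvd_left hdvd hc
  apply cycle_eq P hPc hP0 ⟨y, hx⟩ _ _ (D.pow j x) (D.ext_pow_card l y)
  intro b m hb
  -- `b = n h`
  obtain ⟨h, hh⟩ := (mem_sup_iff' (b : G)).mp b.2
  have hb' : (b : G)⁻¹ * y ^ m * b ∈ H l ⊔ U := by
    have := hb
    rw [hP, Subgroup.mem_subgroupOf] at this
    simpa using this
  -- replace `b` by an element of `N`
  set c : G := (b : G) * (h : G)⁻¹ with hcdef
  have hcN : c ∈ N := by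
    have : c = (h : G) * ((h : G)⁻¹ * b) * (h : G)⁻¹ := by rw [hcdef]; group
    rw [this]
    exact hn.conj_mem _ hh _
  have hc' : c⁻¹ * y ^ m * c ∈ H l ⊔ U := by
    have : c⁻¹ * y ^ m * c = (h : G) * ((b : G)⁻¹ * y ^ m * b) * (h : G)⁻¹ := by
      rw [hcdef]
      group
    rw [this]
    exact (H l ⊔ U).mul_mem ((H l ⊔ U).mul_mem (le_sup_left (a := H l) h.2) hb')
      ((H l ⊔ U).inv_mem (le_sup_left (a := H l) h.2))
  obtain ⟨t, ht⟩ := (mem_sup_iff' _).mp hc'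
  -- `t` is conjugate to an element of `H j`
  set d : G := c⁻¹ * g with hd
  have h1 : d⁻¹ * t * d ∈ H j := by
    have e1 : d⁻¹ * t * d = (x : G) ^ m * (d⁻¹ * ((t : G)⁻¹ * (c⁻¹ * y ^ m * c))⁻¹ * (d⁻¹)⁻¹) := by
      have e2 : y ^ m = g * (x : G) ^ m * g⁻¹ := by rw [hy, conj_pow]
      rw [e2, hd]
      group
    rw [e1]
    exact (H j).mul_mem ((H j).pow_mem x.2 m) (hUj (hU.conj_mem _ (U.inv_mem ht) _))
  have h2 : ε j ⟨_, h1⟩ = ε l t := D.st j l d ⟨_, h1⟩ t (by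
    show (t : G) = d * (d⁻¹ * t * d) * d⁻¹
    group)
  have h3 : ε j ⟨_, h1⟩ = ε j x ^ m := by
    have e0 : ((x ^ m : H j) : G)⁻¹ * (d⁻¹ * t * d) ∈ N := by
      have e1 : ((x ^ m : H j) : G)⁻¹ * (d⁻¹ * t * d) =
          d⁻¹ * ((t : G)⁻¹ * (c⁻¹ * y ^ m * c))⁻¹ * (d⁻¹)⁻¹ := by
        have e2 : y ^ m = g * (x : G) ^ m * g⁻¹ := by rw [hy, conj_pow]
        push_cast
        rw [e2, hd]
        group
      rw [e1]
      exact hUN (hU.conj_mem _ (U.inv_mem ht) _)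
    have e3 := D.one j ((x ^ m)⁻¹ * ⟨_, h1⟩) (by push_cast; exact e0)
    rw [map_mul, map_inv, inv_mul_eq_one, map_pow] at e3
    exact e3.symm
  have h4 : ε l t = ext N ε l y ^ m := by
    rw [← D.ext_pow l hx m, ← D.ext_eq l (c⁻¹ * y ^ m * c) t (hUN ht)]
    obtain ⟨φ, hφ⟩ := D.exists_hom l
    have hcm : c ∈ H l ⊔ N := le_sup_right (a := H l) hcN
    have hym : y ^ m ∈ H l ⊔ N := (H l ⊔ N).pow_mem hx m
    have hc1 : φ ⟨c, hcm⟩ = 1 := by
      rw [hφ, D.ext_eq l c 1 (by simpa using hcN), map_one]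
    rw [← hφ _ ((H l ⊔ N).mul_mem ((H l ⊔ N).mul_mem ((H l ⊔ N).inv_mem hcm) hym) hcm),
      ← hφ _ hym]
    have e5 : (⟨c⁻¹ * y ^ m * c,
        (H l ⊔ N).mul_mem ((H l ⊔ N).mul_mem ((H l ⊔ N).inv_mem hcm) hym) hcm⟩ :
          (H l ⊔ N : Subgroup G)) = (⟨c, hcm⟩ : (H l ⊔ N : Subgroup G))⁻¹ * ⟨y ^ m, hym⟩ * ⟨c, hcm⟩ :=
      rfl
    rw [e5, map_mul, map_mul, map_inv, hc1]
    simp
  rw [← h3, h2, h4]

lemma Dat.ext_congr (D : Dat H k N ε) (i : ι) {a b : G} (ha : a ∈ H i ⊔ N) (h : a⁻¹ * b ∈ N) :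
    ext N ε i a = ext N ε i b := by
  have hn := D.norm
  obtain ⟨x, hx⟩ := (mem_sup_iff' a).mp ha
  have h2 : (x : G)⁻¹ * b ∈ N := by
    have : (x : G)⁻¹ * b = ((x : G)⁻¹ * a) * (a⁻¹ * b) := by group
    rw [this]
    exact N.mul_mem hx h
  rw [D.ext_eq i a x hx, D.ext_eq i b x h2]

lemma Dat.ext_self (D : Dat H k N ε) (i : ι) (x : H i) : ext N ε i x = ε i x :=
  D.ext_eq i x x (by simp [N.one_mem])

lemma Dat.compare' (D : Dat H k N ε) {j l : ι} {U : Subgroup G} (hU : U.Normal)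
    (hUN : U ≤ N) (hUj : U ≤ H j) (hi : (H l ⊔ U).index ≠ 0) (hc : Nat.Coprime (H l ⊔ U).index k)
    {s : G} (hs : s ∈ H j ⊔ N) (b : G) (m : ℕ) (hz : b⁻¹ * s ^ m * b ∈ H l ⊔ N) :
    ext N ε j s ^ m = ext N ε l (b⁻¹ * s ^ m * b) := by
  have hn := D.norm
  rw [← D.ext_pow j hs m]
  have hsm : s ^ m ∈ H j ⊔ N := (H j ⊔ N).pow_mem hs m
  obtain ⟨x, hx⟩ := (mem_sup_iff' (s ^ m)).mp hsm
  rw [D.ext_eq j _ x hx]
  have h1 : (b⁻¹ * s ^ m * b)⁻¹ * (b⁻¹ * x * b⁻¹⁻¹) ∈ N := by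
    have : (b⁻¹ * s ^ m * b)⁻¹ * (b⁻¹ * x * b⁻¹⁻¹) = b⁻¹ * ((x : G)⁻¹ * s ^ m)⁻¹ * b⁻¹⁻¹ := by
      group
    rw [this]
    exact hn.conj_mem _ (N.inv_mem hx) _
  have h2 : b⁻¹ * x * b⁻¹⁻¹ ∈ H l ⊔ N := by
    have : b⁻¹ * x * b⁻¹⁻¹ =
        (b⁻¹ * s ^ m * b) * ((b⁻¹ * s ^ m * b)⁻¹ * (b⁻¹ * x * b⁻¹⁻¹)) := by group
    rw [this]
    exact (H l ⊔ N).mul_mem hz (le_sup_right (a := H l) h1)
  rw [D.compare hU hUN hUj hi hc b⁻¹ x h2, D.ext_congr l hz h1]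

/-- stable characters on a family of subgroups of index prime to `k` in the generalised sense -/
theorem char_glue (norm : ∀ U ∈ Bas, U.Normal) (dir : ∀ U ∈ Bas, ∀ V ∈ Bas, ∃ W ∈ Bas, W ≤ U ⊓ V)
    (hH : ∀ i, ∃ U ∈ Bas, U ≤ H i)
    (cop : ∀ U ∈ Bas, ∃ i, (H i ⊔ U).index ≠ 0 ∧ Nat.Coprime (H i ⊔ U).index k)
    (hN : N ∈ Bas) (D : Dat H k N ε) :
    ∃ η : G →* A, (∀ g, η g ^ k = 1) ∧ ∀ i (x : H i), η x = ε i x := by
  have hn := D.norm
  obtain ⟨l1, h10, h11⟩ := cop N hN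
  obtain ⟨φ, hφ⟩ := D.exists_hom l1
  have down : ∀ {l : ι} {U : Subgroup G}, U ≤ N → (H l ⊔ U).index ≠ 0 →
      Nat.Coprime (H l ⊔ U).index k → (H l ⊔ N).index ≠ 0 ∧ Nat.Coprime (H l ⊔ N).index k := by
    intro l U hU h0 h1
    have hd : (H l ⊔ N).index ∣ (H l ⊔ U).index := index_dvd_of_le (sup_le_sup_left hU _)
    exact ⟨fun h => h0 (Nat.eq_zero_of_zero_dvd (h ▸ hd)), Nat.Coprime.coprime_dvd_left hd h1⟩
  obtain ⟨η, hη1, hη2⟩ := exists_extend (H l1 ⊔ N) h11 h10 φ (by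
    intro x
    rw [show φ x = φ ⟨x, x.2⟩ from rfl, hφ]
    exact D.ext_pow_card l1 x) (by
    intro g x y hy
    obtain ⟨U1, hU1, hU1'⟩ := hH l1
    obtain ⟨U2, hU2, hU2'⟩ := dir N hN U1 hU1
    obtain ⟨l2, h20, h21⟩ := cop U2 hU2
    obtain ⟨h30, h31⟩ := down (hU2'.trans inf_le_left) h20 h21
    rw [show φ y = φ ⟨y, y.2⟩ from rfl, show φ x = φ ⟨x, x.2⟩ from rfl, hφ, hφ]
    apply cycle_eq (H l2 ⊔ N) h31 h30 (y : G) _ _ (D.ext_pow_card l1 _) (D.ext_pow_card l1 _)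
    intro b m hb
    rw [D.compare' (norm U2 hU2) (hU2'.trans inf_le_left)
      (hU2'.trans (inf_le_right.trans hU1')) h20 h21 y.2 b m hb]
    have e1 : b⁻¹ * (y : G) ^ m * b = (g * b)⁻¹ * (x : G) ^ m * (g * b) := by
      have : (y : G) ^ m = g⁻¹ * (x : G) ^ m * g := by
        rw [hy]
        have := conj_pow (i := m) (a := g⁻¹) (b := (x : G))
        rw [inv_inv] at this
        exact this
      rw [this]
      group
    rw [e1] at hb ⊢
    rw [D.compare' (norm U2 hU2) (hU2'.trans inf_le_left)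
      (hU2'.trans (inf_le_right.trans hU1')) h20 h21 x.2 (g * b) m hb])
  refine ⟨η, hη1, ?_⟩
  have hηQ : ∀ x, x ∈ H l1 ⊔ N → η x = ext N ε l1 x := by
    intro x hx
    rw [← hφ x hx, ← hη2]
  intro j x
  obtain ⟨Uj, hUj, hUj'⟩ := hH j
  obtain ⟨U1, hU1, hU1'⟩ := hH l1
  obtain ⟨U2, hU2, hU2'⟩ := dir Uj hUj U1 hU1
  obtain ⟨U, hU, hU'⟩ := dir N hN U2 hU2
  have hUN : U ≤ N := hU'.trans inf_le_left
  have hUHj : U ≤ H j := hU'.trans (inf_le_right.trans (hU2'.trans (inf_le_left.trans hUj')))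
  have hUH1 : U ≤ H l1 := hU'.trans (inf_le_right.trans (hU2'.trans (inf_le_right.trans hU1')))
  obtain ⟨l, h20, h21⟩ := cop U hU
  obtain ⟨h30, h31⟩ := down hUN h20 h21
  have key : ∀ z, z ∈ H l ⊔ N → ext N ε l z = η z := by
    intro z hz
    apply cycle_eq (H l1 ⊔ N) h11 h10 z _ _ (D.ext_pow_card l _) (hη1 _)
    intro b m hb
    have hz' : (b⁻¹)⁻¹ * (b⁻¹ * z ^ m * b) ^ 1 * b⁻¹ ∈ H l ⊔ N := by
      have : (b⁻¹)⁻¹ * (b⁻¹ * z ^ m * b) ^ 1 * b⁻¹ = z ^ m := by group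
      rw [this]
      exact (H l ⊔ N).pow_mem hz m
    have e := D.compare' (norm U hU) hUN hUH1 h20 h21 hb b⁻¹ 1 hz'
    have e2 : (b⁻¹)⁻¹ * (b⁻¹ * z ^ m * b) ^ 1 * b⁻¹ = z ^ m := by group
    rw [e2, pow_one, ← hηQ _ hb, D.ext_pow l hz] at e
    rw [← e, map_mul, map_mul, map_inv, map_pow]
    rw [mul_comm, mul_inv_cancel_left]
  symm
  apply cycle_eq (H l ⊔ N) h31 h30 (x : G) _ _ (D.pow j x) (hη1 _)
  intro b m hb
  have hx : (x : G) ∈ H j ⊔ N := le_sup_left (a := H j) x.2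
  have e := D.compare' (norm U hU) hUN hUHj h20 h21 hx b m hb
  rw [D.ext_self, key _ hb] at e
  rw [e, map_mul, map_mul, map_inv, map_pow, mul_comm, mul_inv_cancel_left]

/-- uniqueness -/
theorem char_unique (hH : ∀ i, ∃ U ∈ Bas, U ≤ H i)
    (norm : ∀ U ∈ Bas, U.Normal)
    (cop : ∀ U ∈ Bas, ∃ i, (H i ⊔ U).index ≠ 0 ∧ Nat.Coprime (H i ⊔ U).index k)
    (hne : Nonempty ι) (χ : G →* A) (hk : ∀ g, χ g ^ k = 1) (h1 : ∀ i (x : H i), χ x = 1) (g : G) :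
    χ g = 1 := by
  obtain ⟨i0⟩ := hne
  obtain ⟨U, hU, hU'⟩ := hH i0
  obtain ⟨l, h0, hc⟩ := cop U hU
  have hn := norm U hU
  apply cycle_eq (H l ⊔ U) hc h0 g _ _ (hk g) (one_pow k)
  intro b m hb
  obtain ⟨x, hx⟩ := (mem_sup_iff' _).mp hb
  have h2 : χ (b⁻¹ * g ^ m * b) = 1 := by
    have : b⁻¹ * g ^ m * b = x * ((x : G)⁻¹ * (b⁻¹ * g ^ m * b)) := by group
    rw [this, map_mul, h1 l x, h1 i0 ⟨_, hU' hx⟩, one_mul]
  rw [map_mul, map_mul, map_inv, map_pow, mul_comm, mul_inv_cancel_left] at h2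
  rw [h2, one_pow]

end family

end Pool.Agent.H34.OP
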