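import Pool.Agent.H34.OP.Loc
import Pool.Agent.H34.FC.Lift

/-!
# Families of extensions which see all primes
-/

open scoped Pointwise NumberField
open Matrix IsDedekindDomain
open Pool.Agent.H71.Patch

namespace Pool.Agent.H34.OP

section group

variable {Γ : Type*} [Group Γ]

/-- If all orbits of `I` on `Γ / H` have length divisible by `p` then so has the index of `H`. -/
lemma dvd_index (I H : Subgroup Γ) [H.FiniteIndex] (p : ℕ)
    (h : ∀ g : Γ, p ∣ (MulAction.stabilizer I (QuotientGroup.mk g : Γ ⧸ H)).index) :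
    p ∣ H.index := by
  classical
  have : Finite (Γ ⧸ H) := H.finite_quotient_of_finiteIndex
  have : Fintype (Γ ⧸ H) := Fintype.ofFinite _
  have : Fintype (Quotient (MulAction.orbitRel I (Γ ⧸ H))) := Fintype.ofFinite _
  rw [Subgroup.index, Nat.card_congr (MulAction.selfEquivSigmaOrbits I (Γ ⧸ H)), Nat.card_sigma]
  apply Finset.dvd_sum
  intro q _
  obtain ⟨g, hg⟩ := QuotientGroup.mk_surjective q.out
  rw [← hg]
  have h1 := h g
  rw [MulAction.index_stabilizer] at h1
  rwa [Nat.card_coe_set_eq]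

lemma index_stab (I H : Subgroup Γ) (g : Γ) :
    (MulAction.stabilizer I (QuotientGroup.mk g : Γ ⧸ H)).index =
      H.relIndex (I.map (MulAut.conj g⁻¹).toMonoidHom) := by
  have h1 : MulAction.stabilizer I (QuotientGroup.mk g : Γ ⧸ H) =
      (H.map (MulAut.conj g).toMonoidHom).subgroupOf I := by
    ext x
    rw [MulAction.mem_stabilizer_iff, Subgroup.mem_subgroupOf]
    constructor
    · intro hx
      have h2 : (QuotientGroup.mk ((x : Γ) * g) : Γ ⧸ H) = QuotientGroup.mk g := hx
      rw [eq_comm, QuotientGroup.eq] at h2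
      refine ⟨_, h2, ?_⟩
      show g * (g⁻¹ * ((x : Γ) * g)) * g⁻¹ = x
      group
    · rintro ⟨y, hy, hyx⟩
      have h2 : g * y * g⁻¹ = x := hyx
      show (QuotientGroup.mk ((x : Γ) * g) : Γ ⧸ H) = QuotientGroup.mk g
      rw [eq_comm, QuotientGroup.eq, ← h2]
      have : g⁻¹ * (g * y * g⁻¹ * g) = y := by group
      rw [this]
      exact hy
  rw [h1]
  show (H.map (MulAut.conj g).toMonoidHom).relIndex I = _
  rw [← Subgroup.relIndex_map_map_of_injective (H.map (MulAut.conj g).toMonoidHom) I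
    (f := (MulAut.conj g⁻¹).toMonoidHom) (MulAut.conj g⁻¹).injective]
  congr 1
  ext x
  constructor
  · rintro ⟨y, ⟨z, hz, rfl⟩, rfl⟩
    show g⁻¹ * (g * z * g⁻¹) * g⁻¹⁻¹ ∈ H
    have : g⁻¹ * (g * z * g⁻¹) * g⁻¹⁻¹ = z := by group
    rw [this]
    exact hz
  · intro hx
    refine ⟨g * x * g⁻¹, ⟨x, hx, rfl⟩, ?_⟩
    show g⁻¹ * (g * x * g⁻¹) * g⁻¹⁻¹ = x
    group

end group

variable {K : Type*} [Field K] [NumberField K]

lemma exists_above (v : HeightOneSpectrum (𝓞 K)) : ∃ Q : Ideal (Zbar K), Above v Q := by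
  have := v.isPrime
  obtain ⟨Q, -, hQ, hQv⟩ := Ideal.exists_ideal_over_prime_of_isIntegral v.asIdeal
    (⊥ : Ideal (Zbar K)) (by
      intro x hx
      rw [Ideal.mem_comap, Ideal.mem_bot] at hx
      have h1 : x = 0 := by
        have h2 := congrArg Subtype.val hx
        have h3 : algebraMap K (AlgebraicClosure K) (x : K) = 0 := h2
        rw [map_eq_zero] at h3
        exact NumberField.RingOfIntegers.ext h3
      rw [h1]
      exact v.asIdeal.zero_mem)
  exact ⟨Q, hQ, hQv⟩

omit [NumberField K] in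
lemma inertia_map (Q : Ideal (Zbar K)) (g : GalK K) :
    (Q.inertia (GalK K)).map (MulAut.conj g).toMonoidHom = (g • Q).inertia (GalK K) := by
  ext x
  constructor
  · rintro ⟨y, hy, rfl⟩
    exact inertia_smul Q g y hy
  · intro hx
    refine ⟨g⁻¹ * x * g, ?_, ?_⟩
    · have := inertia_smul (g • Q) g⁻¹ x hx
      rw [inv_smul_smul, inv_inv] at this
      exact this
    · show g * (g⁻¹ * x * g) * g⁻¹ = x
      group

/-- a field of degree prime to `p` has a place above `v` of ramification index prime to `p` -/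
lemma exists_relIndex (L : IntermediateField K (AlgebraicClosure K)) [FiniteDimensional K L]
    {p : ℕ} (hp : ¬ p ∣ Module.finrank K L) (v : HeightOneSpectrum (𝓞 K)) :
    ∃ Q : Ideal (Zbar K), Above v Q ∧ ¬ p ∣ L.fixingSubgroup.relIndex (Q.inertia (GalK K)) := by
  obtain ⟨Q, hQ⟩ := exists_above v
  by_contra hcon
  push Not at hcon
  have hf : L.fixingSubgroup.FiniteIndex := by
    constructor
    rw [← IntermediateField.finrank_eq_fixingSubgroup_index]
    exact Module.finrank_pos.ne'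
  apply hp
  rw [IntermediateField.finrank_eq_fixingSubgroup_index]
  apply dvd_index (Q.inertia (GalK K))
  intro g
  rw [index_stab, inertia_map]
  apply hcon
  have hQp : Q.IsPrime := hQ.1
  refine ⟨inferInstance, ?_⟩
  rw [← hQ.2]
  exact Ideal.under_smul (𝓞 K) Q g⁻¹

/-- if every element is conjugate into some `G_{L i}` then every `v` has a place of residue degree
one in some `L i` -/
lemma exists_frob_mem {ι : Type*} (A : ι → Subgroup (GalK K))
    (hc : ∀ g : GalK K, ∃ i, ∃ h : GalK K, h * g * h⁻¹ ∈ A i) (v : HeightOneSpectrum (𝓞 K)) :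
    ∃ i, ∃ Q : Ideal (Zbar K), Above v Q ∧ ∃ φ ∈ A i, IsArithFrobAt (𝓞 K) φ Q := by
  obtain ⟨Q, hQ⟩ := exists_above v
  obtain ⟨φ, hφ⟩ := Pool.Agent.H34.FC.exists_frob hQ
  obtain ⟨i, h, hh⟩ := hc φ
  refine ⟨i, h • Q, ?_, h * φ * h⁻¹, hh, IsArithFrobAt.conj hφ h⟩
  have hQp : Q.IsPrime := hQ.1
  refine ⟨inferInstance, ?_⟩
  rw [← hQ.2]
  exact Ideal.under_smul (𝓞 K) Q h

end Pool.Agent.H34.OP
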