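import Pool.Agent.H71.Patch.Main

/-!
# Local conditions at all primes from many places with coprime ramification indices
-/

open scoped Pointwise NumberField
open Matrix IsDedekindDomain
open Pool.Agent.H71.Patch

namespace Pool.Agent.H34.OP

variable {K : Type*} [Field K] [NumberField K] {F : Type*} [Field F] {n : ℕ}

omit [NumberField K] in
lemma inertia_smul (Q : Ideal (Zbar K)) (g x : GalK K) (hx : x ∈ Q.inertia (GalK K)) :
    g * x * g⁻¹ ∈ (g • Q).inertia (GalK K) := by
  intro y
  have h2 := hx (g⁻¹ • y)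
  rw [Submodule.mem_toAddSubgroup] at h2 ⊢
  rw [Ideal.pointwise_smul_eq_comap, Ideal.mem_comap]
  have h3 : g⁻¹ • ((g * x * g⁻¹) • y - y) = x • g⁻¹ • y - g⁻¹ • y := by
    rw [smul_sub, mul_smul, mul_smul, inv_smul_smul]
  change g⁻¹ • ((g * x * g⁻¹) • y - y) ∈ Q
  rw [h3]
  exact h2

/-- **Unramified everywhere.** If for every prime number `p` there is a restriction of `σ` to the
Galois group `A i` of an extension that is unramified at a place above `v` whose ramification index
over `K` is prime to `p`, then `σ` is unramified at `v`. -/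
lemma unram_all (σ : GalK K →* GL (Fin n) F) {ι : Type*} (A : ι → Subgroup (GalK K))
    (ρ : ∀ i, A i →* GL (Fin n) F) (hT : ∀ i, ∃ T : GL (Fin n) F, ∀ g : A i, ρ i g = T * σ g * T⁻¹)
    {v : HeightOneSpectrum (𝓞 K)}
    (h : ∀ p : ℕ, p.Prime → ∃ i, ∃ Q, Above v Q ∧ UnramAt (ρ i) Q ∧
      ¬ p ∣ (A i).relIndex (Q.inertia (GalK K)))
    {Q : Ideal (Zbar K)} (hQ : Above v Q) :
    UnramAt (σ.comp (⊤ : Subgroup (GalK K)).subtype) Q := by
  -- the kernel on inertia
  have key : ∀ p : ℕ, p.Prime → ¬ p ∣ σ.ker.relIndex (Q.inertia (GalK K)) := by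
    intro p hp hd
    obtain ⟨i, Q', hQ', hun, hnd⟩ := h p hp
    obtain ⟨T, hT⟩ := hT i
    obtain ⟨g, rfl⟩ := above_smul hQ' hQ
    apply hnd
    -- conjugation by `g` maps inertia of `Q'` to inertia of `g • Q'`
    have h1 : Q'.inertia (GalK K) ⊓ A i ≤ σ.ker := by
      intro x hx
      have h2 := hun ⟨x, hx.2⟩ hx.1
      rw [hT] at h2
      rw [MonoidHom.mem_ker]
      have h3 : σ x = T⁻¹ * (T * σ x * T⁻¹) * T := by group
      have h4 : T * σ x * T⁻¹ = 1 := h2
      rw [h3, h4]
      group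
    have h5 : σ.ker.relIndex (Q'.inertia (GalK K)) ∣ (A i).relIndex (Q'.inertia (GalK K)) := by
      have : (A i).relIndex (Q'.inertia (GalK K)) =
          (Q'.inertia (GalK K) ⊓ A i).relIndex (Q'.inertia (GalK K)) := by
        rw [inf_comm, Subgroup.inf_relIndex_right]
      rw [this]
      exact Subgroup.relIndex_dvd_of_le_left _ h1
    refine Dvd.dvd.trans ?_ h5
    -- invariance under conjugation
    have h6 : (g • Q').inertia (GalK K) = (Q'.inertia (GalK K)).map (MulAut.conj g).toMonoidHom := by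
      ext x
      constructor
      · intro hx
        refine ⟨g⁻¹ * x * g, ?_, ?_⟩
        · have := inertia_smul (g • Q') g⁻¹ x hx
          rw [inv_smul_smul, inv_inv] at this
          exact this
        · show g * (g⁻¹ * x * g) * g⁻¹ = x
          group
      · rintro ⟨y, hy, rfl⟩
        exact inertia_smul Q' g y hy
    have h7 : σ.ker = σ.ker.map (MulAut.conj g).toMonoidHom := by
      ext x
      constructor
      · intro hx
        refine ⟨g⁻¹ * x * g, ?_, ?_⟩
        · have := σ.normal_ker.conj_mem x hx g⁻¹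
          rwa [inv_inv] at this
        · show g * (g⁻¹ * x * g) * g⁻¹ = x
          group
      · rintro ⟨y, hy, rfl⟩
        exact σ.normal_ker.conj_mem y hy g
    rw [h6, h7, Subgroup.relIndex_map_map_of_injective _ _ (MulAut.conj g).injective] at hd
    exact hd
  have h1 : σ.ker.relIndex (Q.inertia (GalK K)) = 1 := by
    by_contra hne
    obtain ⟨p, hp, hd⟩ := Nat.exists_prime_and_dvd hne
    exact key p hp hd
  rw [Subgroup.relIndex_eq_one] at h1
  intro x hx
  exact h1 hx

/-- **The Frobenius polynomial.** If `σ` is unramified at the primes above `v` and one restriction of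
`σ` has the right Frobenius polynomial at a place above `v` of residue degree one, then `σ` has the
right Frobenius polynomial at `v`. -/
lemma frob_all (σ : GalK K →* GL (Fin n) F) {A : Subgroup (GalK K)}
    (ρ : A →* GL (Fin n) F) (T : GL (Fin n) F) (hT : ∀ g : A, ρ g = T * σ g * T⁻¹)
    {v : HeightOneSpectrum (𝓞 K)} {P : Polynomial F} {Q : Ideal (Zbar K)} (hQ : Above v Q)
    (hun : UnramAt (σ.comp (⊤ : Subgroup (GalK K)).subtype) Q)
    {φ : GalK K} (hφ : IsArithFrobAt (𝓞 K) φ Q) (hA : φ ∈ A) (hP : FrobAt ρ Q P)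
    {Q' : Ideal (Zbar K)} (hQ' : Above v Q') :
    FrobAt (σ.comp (⊤ : Subgroup (GalK K)).subtype) Q' P := by
  obtain ⟨g, rfl⟩ := above_smul hQ hQ'
  apply frob_conj σ g
  intro x hx
  have := hQ.1
  have h1 : (x : GalK K) * φ⁻¹ ∈ Q.inertia (GalK K) := IsArithFrobAt.mul_inv_mem_inertia hx hφ
  have h2 : σ ((x : GalK K) * φ⁻¹) = 1 := hun ⟨_, Subgroup.mem_top _⟩ h1
  rw [map_mul, map_inv, mul_inv_eq_one] at h2
  show ((σ (x : GalK K) : GL (Fin n) F) : Matrix (Fin n) (Fin n) F).charpoly = _
  have h3 := hP ⟨φ, hA⟩ hφ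
  rw [hT] at h3
  rw [h2, ← h3]
  show _ = ((T * σ φ * T⁻¹ : GL (Fin n) F) : Matrix (Fin n) (Fin n) F).charpoly
  rw [Units.val_mul, Units.val_mul, Matrix.coe_units_inv]
  exact (Matrix.charpoly_units_conj T _).symm

end Pool.Agent.H34.OP
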