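import Pool.Agent.H34.OP.Adapt
import Pool.Agent.H34.OP.Loc
import Pool.Agent.H34.OP.Cov
import Pool.Agent.H19.FD.Fin

/-!
# Descent of Galois representations along extensions of degree prime to the dimension
-/

open scoped Pointwise NumberField
open Matrix IsDedekindDomain Pool.Agent.H71.Patch

namespace Pool.Agent.H34.OP

/-- Frobenius elements: one Frobenius element in the group of an extension is enough. -/
lemma frob_one {K : Type*} [Field K] [NumberField K] {F : Type*} [Field F] {n : ℕ}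
    (σ : GalK K →* GL (Fin n) F) {A : Subgroup (GalK K)}
    (ρ : A →* GL (Fin n) F) (T : GL (Fin n) F) (hT : ∀ g : A, ρ g = T * σ g * T⁻¹)
    {v : HeightOneSpectrum (𝓞 K)} {P : Polynomial F} {Q : Ideal (Zbar K)} (hQ : Above v Q)
    (hun : UnramAt (σ.comp (⊤ : Subgroup (GalK K)).subtype) Q)
    {φ : A} (hφ : IsArithFrobAt (𝓞 K) (φ : GalK K) Q)
    (hP : (ρ φ : Matrix (Fin n) (Fin n) F).charpoly = P)
    {Q' : Ideal (Zbar K)} (hQ' : Above v Q') :
    FrobAt (σ.comp (⊤ : Subgroup (GalK K)).subtype) Q' P := by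
  obtain ⟨g, rfl⟩ := above_smul hQ hQ'
  apply frob_conj σ g
  intro x hx
  have := hQ.1
  have h1 : (x : GalK K) * (φ : GalK K)⁻¹ ∈ Q.inertia (GalK K) :=
    IsArithFrobAt.mul_inv_mem_inertia hx hφ
  have h2 : σ ((x : GalK K) * (φ : GalK K)⁻¹) = 1 := hun ⟨_, Subgroup.mem_top _⟩ h1
  rw [map_mul, map_inv, mul_inv_eq_one] at h2
  show ((σ (x : GalK K) : GL (Fin n) F) : Matrix (Fin n) (Fin n) F).charpoly = _
  rw [hT] at hP
  rw [h2, ← hP]
  show _ = ((T * σ φ * T⁻¹ : GL (Fin n) F) : Matrix (Fin n) (Fin n) F).charpoly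
  rw [Units.val_mul, Units.val_mul, Matrix.coe_units_inv]
  exact (Matrix.charpoly_units_conj T _).symm

/-- **Descent.** `K` is a number field, `L i` are finite extensions (not necessarily Galois), `𝓜` is
a directed family of finite Galois extensions of `K` such that every `L i` is contained in some
`M ∈ 𝓜`, and for every `M ∈ 𝓜` some `[L i ∩ M : K]` is prime to `n`. The `ρ i` are continuous
`n`-dimensional representations of the Galois groups of the `L i` with the given Frobenius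
polynomials `P v` at the places of degree one over `K`, and `ρ i₀` is absolutely irreducible on
`G_M` for all `M ∈ 𝓜`. Their determinants are the restrictions of a character `δ` of `G_K`. -/
theorem descent (K : Type) [Field K] [NumberField K] {F : Type*} [Field F] [TopologicalSpace F]
    [IsTopologicalRing F] [T2Space F] {n : ℕ} {ι : Type*}
    (L : ι → IntermediateField K (AlgebraicClosure K)) [∀ i, FiniteDimensional K (L i)]
    (𝓜 : Set (IntermediateField K (AlgebraicClosure K)))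
    (gal : ∀ M ∈ 𝓜, FiniteDimensional K M ∧ IsGalois K M)
    (dir : ∀ M ∈ 𝓜, ∀ M' ∈ 𝓜, ∃ M'' ∈ 𝓜, M ≤ M'' ∧ M' ≤ M'')
    (cov : ∀ i, ∃ M ∈ 𝓜, L i ≤ M)
    (cop : ∀ M ∈ 𝓜, ∃ i, (Module.finrank K ↥(L i ⊓ M)).Coprime n)
    (ρ : ∀ i, (L i).fixingSubgroup →* GL (Fin n) F) (hρ : ∀ i, Continuous (ρ i))
    (δ : GalK K →* Fˣ)
    (det : ∀ i (g : (L i).fixingSubgroup), Matrix.GeneralLinearGroup.det (ρ i g) = δ g)
    (S : Set (HeightOneSpectrum (𝓞 K))) (hS : S.Finite)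
    (P : HeightOneSpectrum (𝓞 K) → Polynomial F)
    (hP : ∀ i, ∀ v ∉ S, ∀ Q, Above v Q → Dec Q ≤ (L i).fixingSubgroup → FrobAt (ρ i) Q (P v))
    (i₀ : ι)
    (irr : ∀ M ∈ 𝓜, L i₀ ≤ M → Submodule.span F {X : Matrix (Fin n) (Fin n) F |
      ∃ g : (L i₀).fixingSubgroup, (g : GalK K) ∈ M.fixingSubgroup ∧ X = (ρ i₀ g).1} = ⊤) :
    ∃ σ : GalK K →* GL (Fin n) F, Continuous σ ∧
      (∀ g, Matrix.GeneralLinearGroup.det (σ g) = δ g) ∧
      (∀ i, ∃ T : GL (Fin n) F, ∀ g : (L i).fixingSubgroup, ρ i g = T * σ g * T⁻¹) ∧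
      (∀ τ : GalK K →* GL (Fin n) F, (∀ g, Matrix.GeneralLinearGroup.det (τ g) = δ g) →
        (∀ i, ∃ T : GL (Fin n) F, ∀ g : (L i).fixingSubgroup, ρ i g = T * τ g * T⁻¹) →
        ∃ T : GL (Fin n) F, ∀ g, τ g = T * σ g * T⁻¹) ∧
      (∀ i, Irred (ρ i) → Irred σ) ∧
      (∀ v : HeightOneSpectrum (𝓞 K),
        (∀ p : ℕ, p.Prime → ∃ i, ∃ Q, Above v Q ∧ UnramAt (ρ i) Q ∧
          ¬ p ∣ (L i).fixingSubgroup.relIndex (Q.inertia (GalK K))) →
        ∀ Q, Above v Q → UnramAt (σ.comp (⊤ : Subgroup (GalK K)).subtype) Q) ∧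
      (∀ v : HeightOneSpectrum (𝓞 K),
        (∀ Q, Above v Q → UnramAt (σ.comp (⊤ : Subgroup (GalK K)).subtype) Q) →
        ∀ p : Polynomial F, (∃ i, ∃ Q, Above v Q ∧ ∃ φ : (L i).fixingSubgroup,
          IsArithFrobAt (𝓞 K) (φ : GalK K) Q ∧
            (ρ i φ : Matrix (Fin n) (Fin n) F).charpoly = p) →
        ∀ Q, Above v Q → FrobAt (σ.comp (⊤ : Subgroup (GalK K)).subtype) Q p) ∧
      ((∀ g : GalK K, ∃ i, ∃ h : GalK K, h * g * h⁻¹ ∈ (L i).fixingSubgroup) →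
        (∀ p : ℕ, p.Prime → ∃ i, ¬ p ∣ Module.finrank K (L i)) →
        ∀ (v : HeightOneSpectrum (𝓞 K)) (p : Polynomial F),
          (∀ i Q, Above v Q → UnramAt (ρ i) Q ∧ FrobAt (ρ i) Q p) →
          ∀ Q, Above v Q → UnramAt (σ.comp (⊤ : Subgroup (GalK K)).subtype) Q ∧
            FrobAt (σ.comp (⊤ : Subgroup (GalK K)).subtype) Q p) ∧
      (∀ W, IsLocalProperty W → ∀ v : HeightOneSpectrum (𝓞 K),
        (∃ i, ∃ Q, Above v Q ∧ PotAt W (ρ i) Q) →
        ∀ Q, Above v Q → PotAt W (σ.comp (⊤ : Subgroup (GalK K)).subtype) Q) := by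
  have hFD := Pool.Agent.H19.FD.frobDiv K
  have hopen : ∀ i, IsOpen ((L i).fixingSubgroup : Set (GalK K)) :=
    fun i => (L i).fixingSubgroup_isOpen
  have hle : ∀ M : IntermediateField K (AlgebraicClosure K),
      M.fixingSubgroup ≤ (L i₀).fixingSubgroup → L i₀ ≤ M := by
    intro M h
    rw [← InfiniteGalois.fixedField_fixingSubgroup (L i₀),
      ← InfiniteGalois.fixedField_fixingSubgroup M]
    intro x hx g
    exact hx ⟨g.1, h g.2⟩
  obtain ⟨σ, hdet, hT, huniq⟩ := glue (GalK K) F n ι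
    {U | ∃ M ∈ 𝓜, U = M.fixingSubgroup}
    (by
      rintro U ⟨M, hM, rfl⟩
      have := (gal M hM).2
      exact inferInstance)
    (by
      rintro U ⟨M, hM, rfl⟩ U' ⟨M', hM', rfl⟩
      obtain ⟨M'', hM'', h1, h2⟩ := dir M hM M' hM'
      exact ⟨_, ⟨M'', hM'', rfl⟩, le_inf (IntermediateField.fixingSubgroup_le h1)
        (IntermediateField.fixingSubgroup_le h2)⟩)
    (fun i => (L i).fixingSubgroup)
    (by
      intro i
      obtain ⟨M, hM, h⟩ := cov i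
      exact ⟨_, ⟨M, hM, rfl⟩, IntermediateField.fixingSubgroup_le h⟩)
    (by
      rintro U ⟨M, hM, rfl⟩
      obtain ⟨i, hi⟩ := cop M hM
      refine ⟨i, ?_, ?_⟩
      · rw [Pool.Agent.H19.OD.index_sup]
        have : FiniteDimensional K ↥(L i ⊓ M) := inferInstance
        exact Module.finrank_pos.ne'
      · rwa [Pool.Agent.H19.OD.index_sup])
    ρ δ det
    (by
      intro i j g x y hxy
      have h1 : g * (x : GalK K) * g⁻¹ ∈ (L j).fixingSubgroup := by rw [← hxy]; exact y.2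
      have h2 := Pool.Agent.H19.OD.trace_eq hFD (hopen i) (hopen j) (ρ i) (ρ j) (hρ i) (hρ j) S hS P
        (hP i) (hP j) g x x.2 h1
      have h3 : y = ⟨g * (x : GalK K) * g⁻¹, h1⟩ := Subtype.ext hxy
      rw [h3]
      exact h2)
    i₀ (by
      rintro U ⟨M, hM, rfl⟩ hU
      exact irr M hM (hle M hU))
  obtain ⟨T0, hT0⟩ := hT i₀
  have hU : ∀ v : HeightOneSpectrum (𝓞 K),
      (∀ p : ℕ, p.Prime → ∃ i, ∃ Q, Above v Q ∧ UnramAt (ρ i) Q ∧
        ¬ p ∣ (L i).fixingSubgroup.relIndex (Q.inertia (GalK K))) →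
      ∀ Q, Above v Q → UnramAt (σ.comp (⊤ : Subgroup (GalK K)).subtype) Q := by
    intro v hv Q hQ
    exact unram_all σ (fun i => (L i).fixingSubgroup) ρ hT hv hQ
  refine ⟨σ, Pool.Agent.H19.OD.continuous_of_restrict (L i₀) (ρ i₀) (hρ i₀) σ T0 hT0, hdet, hT,
    huniq, ?_, hU, ?_, ?_, ?_⟩
  · intro i hi
    obtain ⟨T, hT⟩ := hT i
    exact irred_transfer σ (ρ i) T hT hi
  · rintro v hv p ⟨i, Q, hQ, φ, hφ, hp⟩ Q' hQ'
    obtain ⟨T, hT⟩ := hT i
    exact frob_one σ (ρ i) T hT hQ (hv Q hQ) hφ hp hQ'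
  · intro hc hd v p h Q hQ
    have h1 : ∀ Q, Above v Q → UnramAt (σ.comp (⊤ : Subgroup (GalK K)).subtype) Q := by
      apply hU
      intro q hq
      obtain ⟨i, hi⟩ := hd q hq
      obtain ⟨Q', hQ', hQ''⟩ := exists_relIndex (L i) hi v
      exact ⟨i, Q', hQ', (h i Q' hQ').1, hQ''⟩
    obtain ⟨i, Q', hQ', φ, hφA, hφ⟩ := exists_frob_mem (fun i => (L i).fixingSubgroup) hc v
    obtain ⟨T, hT⟩ := hT i
    exact ⟨h1 Q hQ, frob_one σ (ρ i) T hT hQ' (h1 Q' hQ') (φ := ⟨φ, hφA⟩) hφ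
      ((h i Q' hQ').2 ⟨φ, hφA⟩ hφ) hQ⟩
  · rintro W hW v ⟨i, Q, hQ, hpot⟩ Q' hQ'
    obtain ⟨T, hT⟩ := hT i
    obtain ⟨g, rfl⟩ := above_smul hQ hQ'
    exact pot_transfer hW σ (ρ i) T hT g hpot

end Pool.Agent.H34.OP
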