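import Pool.Agent.H34.OP.Rep

/-!
# Gluing absolutely irreducible representations with given determinant: the theorem
-/

open Matrix Subgroup

namespace Pool.Agent.H34.OP

variable {F : Type*} [Field F] {n : ℕ} {Γ : Type*} [Group Γ]

/-- the hypotheses of the gluing theorem -/
structure Fam (Bas : Set (Subgroup Γ)) {ι : Type*} (H : ι → Subgroup Γ)
    (r : ι → Γ → GL (Fin n) F) (δ : Γ →* Fˣ) (i0 : ι) : Prop where
  norm : ∀ U ∈ Bas, U.Normal
  dir : ∀ U ∈ Bas, ∀ V ∈ Bas, ∃ W ∈ Bas, W ≤ U ⊓ V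
  hH : ∀ i, ∃ U ∈ Bas, U ≤ H i
  cop : ∀ U ∈ Bas, ∃ i, (H i ⊔ U).index ≠ 0 ∧ Nat.Coprime (H i ⊔ U).index n
  mul : ∀ i, MulOn (H i) (r i)
  det : ∀ i, ∀ x ∈ H i, GeneralLinearGroup.det (r i x) = δ x
  tr : ∀ i j g x, x ∈ H i → g * x * g⁻¹ ∈ H j →
    (r i x : Matrix (Fin n) (Fin n) F).trace = (r j (g * x * g⁻¹) : Matrix (Fin n) (Fin n) F).trace
  irr : ∀ U ∈ Bas, U ≤ H i0 → SpanOn U (r i0)

variable {Bas : Set (Subgroup Γ)} {ι : Type*} {H : ι → Subgroup Γ} {r : ι → Γ → GL (Fin n) F}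
  {δ : Γ →* Fˣ} {i0 : ι}

lemma Fam.exIt (D : Fam Bas H r δ i0) {N : Subgroup Γ} (hN : N ∈ Bas) (hN0 : N ≤ H i0) (g : Γ) :
    ∃ T, It N (r i0) g T := by
  have hn := D.norm N hN
  apply iso_of_trace (r := r i0) (s := fun x => r i0 (g * x * g⁻¹)) ((D.mul i0).mono hN0)
  · intro a ha b hb
    show r i0 (g * (a * b) * g⁻¹) = _
    have e : g * (a * b) * g⁻¹ = (g * a * g⁻¹) * (g * b * g⁻¹) := by group
    rw [e, D.mul i0 _ (hN0 (hn.conj_mem _ ha _)) _ (hN0 (hn.conj_mem _ hb _))]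
  · exact D.irr N hN hN0
  · intro x hx
    exact D.tr i0 i0 g x (hN0 hx) (hN0 (hn.conj_mem _ hx _))

lemma Fam.exU (D : Fam Bas H r δ i0) {N : Subgroup Γ} (hN : N ∈ Bas) (i : ι) :
    ∃ U ∈ Bas, U ≤ N ⊓ H i := by
  obtain ⟨U, hU, hU'⟩ := D.hH i
  obtain ⟨W, hW, hW'⟩ := D.dir N hN U hU
  exact ⟨W, hW, hW'.trans (inf_le_inf_left _ hU')⟩

lemma Fam.align (D : Fam Bas H r δ i0) {N : Subgroup Γ} (hN : N ∈ Bas) (hN0 : N ≤ H i0) (i : ι) :
    ∃ T : GL (Fin n) F, ∀ x ∈ N ⊓ H i, r i x = T * r i0 x * T⁻¹ := by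
  obtain ⟨U, hU, hU'⟩ := D.exU hN i
  apply iso_of_trace ((D.mul i0).mono (inf_le_left.trans hN0)) ((D.mul i).mono inf_le_right)
  · exact (D.irr U hU ((hU'.trans inf_le_left).trans hN0)).mono hU'
  · intro x hx
    have := D.tr i0 i 1 x (hN0 hx.1) (by simpa using hx.2)
    simpa using this

/-- an intertwiner for an element of `H i` is a multiple of the aligned `r i` -/
lemma Fam.itH (D : Fam Bas H r δ i0) {N : Subgroup Γ} (hN : N ∈ Bas) (hN0 : N ≤ H i0) {i : ι}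
    {r' : Γ → GL (Fin n) F} (hr' : MulOn (H i) r') (he : ∀ x ∈ N ⊓ H i, r' x = r i0 x)
    {g : Γ} (hg : g ∈ H i) {T : GL (Fin n) F} (hT : It N (r i0) g T) : ∃ c : Fˣ, T = sc c * r' g := by
  obtain ⟨U, hU, hU'⟩ := D.exU hN i
  have hn := D.norm U hU
  apply It.unique (D.irr U hU ((hU'.trans inf_le_left).trans hN0)) (g := g) _
    (hT.mono (hU'.trans inf_le_left))
  intro x hx
  have hx' := hU' hx
  rw [← he _ (hU' (hn.conj_mem _ hx _)), ← he _ hx',
    hr' _ ((H i).mul_mem hg hx'.2) _ ((H i).inv_mem hg), hr' _ hg _ hx'.2, hr'.inv hg]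

/-- existence of intertwiners with the given determinant -/
lemma Fam.surj (D : Fam Bas H r δ i0) {N : Subgroup Γ} (hN : N ∈ Bas) (hN0 : N ≤ H i0) (g : Γ) :
    ∃ T, It N (r i0) g T ∧ GeneralLinearGroup.det T = δ g := by
  have hn := D.norm N hN
  have hr0 : MulOn N (r i0) := (D.mul i0).mono hN0
  obtain ⟨l, h0, h1⟩ := D.cop N hN
  obtain ⟨Tl, hTl⟩ := D.align hN hN0 l
  obtain ⟨T, hT⟩ := D.exIt hN hN0 g
  let R : Subgroup Fˣ := (powMonoidHom n : Fˣ →* Fˣ).range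
  set d : Fˣ := GeneralLinearGroup.det T * (δ g)⁻¹ with hd
  have key : (QuotientGroup.mk d : Fˣ ⧸ R) = 1 := by
    apply cycle_eq (H l ⊔ N) h1 h0 g _ _ _ (one_pow n)
    · intro b m hb
      rw [one_pow, ← QuotientGroup.mk_pow, QuotientGroup.eq_one_iff]
      obtain ⟨h, hh⟩ := (mem_sup_iff' _).mp hb
      set ν : Γ := (h : Γ)⁻¹ * (b⁻¹ * g ^ m * b) with hν
      obtain ⟨Tb, hTb⟩ := D.exIt hN hN0 b
      have hS : It N (r i0) (b⁻¹ * g ^ m * b * ν⁻¹) (Tb⁻¹ * T ^ m * Tb * (r i0 ν)⁻¹) :=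
        ((((hTb.inv hn).mul hn (hT.pow hn m)).mul hn hTb).mul hn ((It.self hr0 hh).inv hn))
      have e1 : b⁻¹ * g ^ m * b * ν⁻¹ = h := by rw [hν]; group
      rw [e1] at hS
      obtain ⟨c, hc⟩ := D.itH hN hN0 (i := l) (r' := fun x => Tl⁻¹ * r l x * Tl)
        ((D.mul l).conj Tl) (by
          intro x hx
          show Tl⁻¹ * r l x * Tl = _
          rw [hTl x hx]
          group) h.2 hS
      refine ⟨c, ?_⟩
      have h3 := congrArg GeneralLinearGroup.det hc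
      simp only [map_mul, map_inv, map_pow, det_sc] at h3
      rw [D.det l h h.2, D.det i0 ν (hN0 hh)] at h3
      have h4 : δ ν = (δ h)⁻¹ * δ g ^ m := by
        rw [hν]
        simp only [map_mul, map_inv, map_pow]
        rw [mul_comm (δ b)⁻¹, inv_mul_cancel_right]
      rw [h4] at h3
      show c ^ n = d ^ m
      have h5 : ∀ t w x y z : Fˣ, t⁻¹ * w * t * (x⁻¹ * y)⁻¹ = z * (t⁻¹ * x * t) → z = w * y⁻¹ := by
        intro t w x y z h
        have e2 : t⁻¹ * w * t = w := by rw [mul_comm t⁻¹, inv_mul_cancel_right]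
        have e3 : t⁻¹ * x * t = x := by rw [mul_comm t⁻¹, inv_mul_cancel_right]
        rw [e2, e3, _root_.mul_inv_rev, inv_inv, ← mul_assoc] at h
        exact (mul_right_cancel h).symm
      rw [hd, mul_pow, inv_pow]
      apply h5 (GeneralLinearGroup.det Tb) _ (δ h)
      rw [h3]
      congr 1
      rw [mul_comm (GeneralLinearGroup.det Tb)⁻¹, inv_mul_cancel_right,
        mul_comm (GeneralLinearGroup.det Tl)⁻¹, inv_mul_cancel_right]
    · rw [← QuotientGroup.mk_pow, QuotientGroup.eq_one_iff]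
      exact ⟨d, rfl⟩
  rw [QuotientGroup.eq_one_iff] at key
  obtain ⟨e, he⟩ := key
  refine ⟨T * sc e⁻¹, ?_, ?_⟩
  · intro x hx
    rw [hT x hx, ← sc_comm]
    have : (sc e⁻¹ * T) * r i0 x * (sc e⁻¹ * T)⁻¹ = sc e⁻¹ * (T * r i0 x * T⁻¹) * (sc e⁻¹)⁻¹ := by
      group
    rw [this, sc_comm]
    group
  · rw [map_mul, det_sc]
    have h6 : e ^ n = d := he
    rw [inv_pow, h6, hd, _root_.mul_inv_rev, inv_inv, mul_comm (δ g), mul_inv_cancel_left]

/-- **Gluing.** -/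
theorem Fam.glue (D : Fam Bas H r δ i0) (hn0 : n ≠ 0) :
    ∃ σ : Γ →* GL (Fin n) F, (∀ g, GeneralLinearGroup.det (σ g) = δ g) ∧
      ∀ i, ∃ T : GL (Fin n) F, ∀ x ∈ H i, r i x = T * σ x * T⁻¹ := by
  classical
  obtain ⟨N, hN, hN0⟩ := D.hH i0
  have hn := D.norm N hN
  have hr0 : MulOn N (r i0) := (D.mul i0).mono hN0
  have hsp : SpanOn N (r i0) := D.irr N hN hN0
  choose Tl hTl using fun i => D.align hN hN0 i
  let r' : ι → Γ → GL (Fin n) F := fun i x => (Tl i)⁻¹ * r i x * Tl i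
  have hr'm : ∀ i, MulOn (H i) (r' i) := fun i => (D.mul i).conj (Tl i)
  have hr'0 : ∀ i, ∀ x ∈ N ⊓ H i, r' i x = r i0 x := by
    intro i x hx
    show (Tl i)⁻¹ * r i x * Tl i = _
    rw [hTl i x hx]
    group
  have hr'd : ∀ i, ∀ x ∈ H i, GeneralLinearGroup.det (r' i x) = δ x := by
    intro i x hx
    show GeneralLinearGroup.det ((Tl i)⁻¹ * r i x * Tl i) = _
    rw [map_mul, map_mul, map_inv, D.det i x hx, mul_comm (GeneralLinearGroup.det (Tl i))⁻¹,
      inv_mul_cancel_right]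
  have hr't : ∀ i x, (r' i x : Matrix (Fin n) (Fin n) F).trace =
      (r i x : Matrix (Fin n) (Fin n) F).trace := by
    intro i x
    show (((Tl i)⁻¹ * r i x * Tl i : GL (Fin n) F) : Matrix (Fin n) (Fin n) F).trace = _
    rw [Units.val_mul, Units.val_mul, trace_mul_comm, ← mul_assoc, ← Units.val_mul,
      mul_inv_cancel, Units.val_one, one_mul]
  let E := Ext hn (r i0) δ
  let π : E →* Γ := pr hn (r i0) δ
  have hπ : Function.Surjective π := by
    intro g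
    obtain ⟨T, h1, h2⟩ := D.surj hN hN0 g
    exact ⟨⟨(g, T), h1, h2⟩, rfl⟩
  let K : ι → Subgroup E := fun i => (H i).comap π
  -- the characters
  have hc : ∀ i (p : K i), ∃ c : Fˣ, (p : E).1.2 = sc c * r' i (p : E).1.1 := fun i p =>
    D.itH hN hN0 (hr'm i) (hr'0 i) p.2 (p : E).2.1
  choose c hc using hc
  have hcu : ∀ i (p : K i) (d : Fˣ), (p : E).1.2 = sc d * r' i (p : E).1.1 → c i p = d := by
    intro i p d hd
    have h1 := hc i p
    rw [hd] at h1
    exact (sc_inj hn0 (mul_right_cancel h1)).symm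
  let ε : ∀ i, K i →* Fˣ := fun i => MonoidHom.mk' (c i) (by
    intro p q
    apply hcu
    have h1 := hc i p
    have h2 := hc i q
    show (p : E).1.2 * (q : E).1.2 = sc (c i p * c i q) * r' i ((p : E).1.1 * (q : E).1.1)
    have hp : (p : E).1.1 ∈ H i := p.2
    have hq : (q : E).1.1 ∈ H i := q.2
    rw [h1, h2, hr'm i _ hp _ hq, sc_mul]
    have := sc_comm (c i q) (r' i (p : E).1.1)
    rw [mul_assoc, ← mul_assoc (r' i _), ← this]
    simp only [mul_assoc])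
  have hε : ∀ i p, ε i p = c i p := fun i p => rfl
  -- the family of normal subgroups of the extension
  let Bas' : Set (Subgroup E) := {V | ∃ U ∈ Bas, V = Lft hn hr0 δ U}
  have norm' : ∀ V ∈ Bas', V.Normal := by
    rintro V ⟨U, hU, rfl⟩
    exact Lft_normal hn hr0 δ (D.norm U hU)
  have dir' : ∀ V ∈ Bas', ∀ W ∈ Bas', ∃ X ∈ Bas', X ≤ V ⊓ W := by
    rintro V ⟨U, hU, rfl⟩ W ⟨U', hU', rfl⟩
    obtain ⟨X, hX, hX'⟩ := D.dir U hU U' hU'
    refine ⟨_, ⟨X, hX, rfl⟩, ?_⟩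
    rintro p ⟨⟨h1, h1'⟩, h2⟩
    exact ⟨⟨⟨(hX' h1).1, h1'⟩, h2⟩, ⟨⟨(hX' h1).2, h1'⟩, h2⟩⟩
  have hH' : ∀ i, ∃ V ∈ Bas', V ≤ K i := by
    intro i
    obtain ⟨U, hU, hU'⟩ := D.hH i
    refine ⟨_, ⟨U, hU, rfl⟩, ?_⟩
    rintro p ⟨⟨h1, -⟩, -⟩
    exact hU' h1
  have cop' : ∀ V ∈ Bas', ∃ i, (K i ⊔ V).index ≠ 0 ∧ Nat.Coprime (K i ⊔ V).index n := by
    rintro V ⟨U0, hU0, rfl⟩
    obtain ⟨U, hU, hU'⟩ := D.dir N hN U0 hU0
    obtain ⟨i, h0, h1⟩ := D.cop U hU
    have hle : (H i ⊔ U).comap π ≤ K i ⊔ Lft hn hr0 δ U0 := by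
      intro p hp
      have := D.norm U hU
      obtain ⟨h, hh⟩ := (mem_sup_iff' (π p)).mp hp
      set u : Γ := (h : Γ)⁻¹ * π p with hu
      have huN : u ∈ N := (hU' hh).1
      let q : E := ⟨(u, r i0 u), It.self hr0 huN, D.det i0 u (hN0 huN)⟩
      have hq : q ∈ Lft hn hr0 δ U0 := ⟨⟨(hU' hh).2, huN⟩, rfl⟩
      have hpq : p * q⁻¹ ∈ K i := by
        show π (p * q⁻¹) ∈ H i
        rw [map_mul, map_inv]
        have : π q = u := rfl
        rw [this, hu]
        have e : π p * ((h : Γ)⁻¹ * π p)⁻¹ = h := by group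
        rw [e]
        exact h.2
      have e : p = (p * q⁻¹) * q := by group
      rw [e]
      exact (K i ⊔ Lft hn hr0 δ U0).mul_mem (le_sup_left (a := K i) hpq)
        (le_sup_right (a := K i) hq)
    have hdvd : (K i ⊔ Lft hn hr0 δ U0).index ∣ (H i ⊔ U).index := by
      have h2 := index_dvd_of_le hle
      rwa [index_comap_of_surjective _ hπ] at h2
    refine ⟨i, fun h => h0 ?_, Nat.Coprime.coprime_dvd_left hdvd h1⟩
    rw [h] at hdvd
    exact Nat.eq_zero_of_zero_dvd hdvd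
  -- the data
  have hDat : Dat K n (Lft hn hr0 δ N) ε := by
    refine ⟨Lft_normal hn hr0 δ hn, ?_, ?_, ?_⟩
    · rintro i p ⟨⟨-, h1⟩, h2⟩
      rw [hε]
      apply hcu
      rw [h2, hr'0 i _ ⟨h1, p.2⟩, sc_one, one_mul]
    · intro i p
      rw [hε]
      have h1 := hc i p
      have h2 := (p : E).2.2
      have hp : (p : E).1.1 ∈ H i := p.2
      rw [h1, map_mul, det_sc, hr'd i _ hp] at h2
      exact mul_eq_right.mp h2
    · intro i j γ p q hq
      rw [hε, hε]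
      obtain ⟨U, hU, hU'⟩ := D.exU hN i
      obtain ⟨W, hW, hW'⟩ := D.exU hU j
      have hWn := D.norm W hW
      have hWs : SpanOn W (r i0) :=
        D.irr W hW (((hW'.trans inf_le_left).trans (hU'.trans inf_le_left)).trans hN0)
      -- an element with nonzero trace
      obtain ⟨u, hu, hut⟩ : ∃ u ∈ W, (((p : E).1.2 * r i0 u : GL (Fin n) F) :
          Matrix (Fin n) (Fin n) F).trace ≠ 0 := by
        by_contra hcon
        push Not at hcon
        have h0 := eq_zero_of_trace hWs ((p : E).1.2 : Matrix (Fin n) (Fin n) F) (by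
          rintro X ⟨u, hu, rfl⟩
          exact hcon u hu)
        have h1 := congrFun (congrFun (Units.mul_inv (p : E).1.2) ⟨0, Nat.pos_of_ne_zero hn0⟩)
          ⟨0, Nat.pos_of_ne_zero hn0⟩
        rw [h0, zero_mul] at h1
        simp at h1
      set x : Γ := (p : E).1.1 with hx
      set g : Γ := γ.1.1 with hg
      have hxi : x ∈ H i := p.2
      have huU : u ∈ U := (hW' hu).1
      have huN : u ∈ N := (hU' huU).1
      have hui : u ∈ H i := (hU' huU).2
      have huj : g * u * g⁻¹ ∈ H j := (hW' (hWn.conj_mem _ hu g)).2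
      have hq1 : (q : E).1.1 = g * x * g⁻¹ := by rw [hq]; rfl
      have hq2 : (q : E).1.2 = γ.1.2 * (p : E).1.2 * γ.1.2⁻¹ := by rw [hq]; rfl
      have hyj : g * x * g⁻¹ ∈ H j := by rw [← hq1]; exact q.2
      have e1 : g * (x * u) * g⁻¹ = (g * x * g⁻¹) * (g * u * g⁻¹) := by group
      have ht := D.tr i j g (x * u) ((H i).mul_mem hxi hui) (by
        rw [e1]
        exact (H j).mul_mem hyj huj)
      rw [e1, ← hr't, ← hr't, hr'm i _ hxi _ hui, hr'm j _ hyj _ huj,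
        hr'0 i u ⟨huN, hui⟩, hr'0 j _ ⟨hn.conj_mem _ huN _, huj⟩, γ.2.1 u huN] at ht
      have h1 := hc i p
      have h2 := hc j q
      rw [hq1] at h2
      have t1 : (((p : E).1.2 * r i0 u : GL (Fin n) F) : Matrix (Fin n) (Fin n) F).trace =
          c i p * ((r' i x * r i0 u : GL (Fin n) F) : Matrix (Fin n) (Fin n) F).trace := by
        rw [h1, mul_assoc, trace_sc_mul]
      have t2 : (((p : E).1.2 * r i0 u : GL (Fin n) F) : Matrix (Fin n) (Fin n) F).trace =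
          c j q * ((r' j (g * x * g⁻¹) * (γ.1.2 * r i0 u * γ.1.2⁻¹) : GL (Fin n) F) :
            Matrix (Fin n) (Fin n) F).trace := by
        rw [← trace_sc_mul, ← mul_assoc, ← h2, hq2]
        have e3 : γ.1.2 * (p : E).1.2 * γ.1.2⁻¹ * (γ.1.2 * r i0 u * γ.1.2⁻¹) =
            γ.1.2 * ((p : E).1.2 * r i0 u) * γ.1.2⁻¹ := by group
        rw [e3, Units.val_mul _ (γ.1.2⁻¹), Units.val_mul γ.1.2, trace_mul_comm, ← mul_assoc,
          ← Units.val_mul, inv_mul_cancel, Units.val_one, one_mul]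
      rw [← ht] at t2
      rw [t1] at t2 hut
      exact Units.ext (mul_right_cancel₀ (right_ne_zero_of_mul hut) t2)
  obtain ⟨η, hη1, hη2⟩ := char_glue Bas' norm' dir' hH' cop' ⟨N, hN, rfl⟩ hDat
  -- the representation of the extension
  let τ : E →* GL (Fin n) F := MonoidHom.mk' (fun p => sc (η p)⁻¹ * p.1.2) (by
    intro p q
    show sc (η (p * q))⁻¹ * (p.1.2 * q.1.2) = sc (η p)⁻¹ * p.1.2 * (sc (η q)⁻¹ * q.1.2)
    have := sc_comm (η q)⁻¹ p.1.2
    rw [mul_assoc (sc (η p)⁻¹), ← mul_assoc p.1.2, ← this, map_mul, mul_inv, sc_mul]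
    simp only [mul_assoc])
  have hτ : ∀ p : E, τ p = sc (η p)⁻¹ * p.1.2 := fun p => rfl
  have hker : π.ker ≤ τ.ker := by
    intro p hp
    have hp1 : p.1.1 = 1 := hp
    have hpK : p ∈ K i0 := by
      show p.1.1 ∈ H i0
      rw [hp1]
      exact (H i0).one_mem
    have h1 := hη2 i0 ⟨p, hpK⟩
    have h2 := hc i0 ⟨p, hpK⟩
    rw [hε] at h1
    rw [← h1] at h2
    rw [MonoidHom.mem_ker, hτ]
    have h3 : r' i0 p.1.1 = 1 := by rw [hp1, (hr'm i0).one]
    have h4 : p.1.2 = sc (η p) := by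
      have h5 : p.1.2 = sc (η p) * r' i0 p.1.1 := h2
      rw [h5, h3, mul_one]
    rw [h4, ← sc_mul, inv_mul_cancel, sc_one]
  choose s hs using hπ
  have hst : ∀ p, τ p = τ (s (π p)) := by
    intro p
    have : p * (s (π p))⁻¹ ∈ π.ker := by
      rw [MonoidHom.mem_ker, map_mul, map_inv, hs, mul_inv_cancel]
    have := hker this
    rw [MonoidHom.mem_ker, map_mul, map_inv, mul_inv_eq_one] at this
    exact this
  let σ : Γ →* GL (Fin n) F := MonoidHom.mk' (fun g => τ (s g)) (by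
    intro g h
    show τ (s (g * h)) = τ (s g) * τ (s h)
    have := hst (s g * s h)
    rw [map_mul, map_mul, hs, hs] at this
    exact this.symm)
  have hσ : ∀ p, σ (π p) = τ p := fun p => (hst p).symm
  refine ⟨σ, ?_, ?_⟩
  · intro g
    show GeneralLinearGroup.det (τ (s g)) = δ g
    rw [hτ, map_mul, det_sc, inv_pow, hη1, inv_one, one_mul, (s g).2.2]
    have : (s g).1.1 = g := hs g
    rw [this]
  · intro i
    refine ⟨Tl i, fun x hx => ?_⟩
    have h1 : σ x = r' i x := by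
      have e0 : (s x).1.1 = x := hs x
      have hsK : s x ∈ K i := by
        show (s x).1.1 ∈ H i
        rw [e0]
        exact hx
      show τ (s x) = _
      rw [hτ]
      have h2 := hη2 i ⟨s x, hsK⟩
      have h3 := hc i ⟨s x, hsK⟩
      rw [hε] at h2
      rw [← h2] at h3
      have h5 : (s x).1.2 = sc (η (s x)) * r' i (s x).1.1 := h3
      rw [h5, e0, ← mul_assoc, ← sc_mul, inv_mul_cancel, sc_one, one_mul]
    rw [h1]
    show _ = Tl i * ((Tl i)⁻¹ * r i x * Tl i) * (Tl i)⁻¹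
    group

/-- **Uniqueness.** -/
theorem Fam.unique (D : Fam Bas H r δ i0) (hn0 : n ≠ 0) (σ τ : Γ →* GL (Fin n) F)
    (hσd : ∀ g, GeneralLinearGroup.det (σ g) = δ g) (hτd : ∀ g, GeneralLinearGroup.det (τ g) = δ g)
    (hσ : ∀ i, ∃ T : GL (Fin n) F, ∀ x ∈ H i, r i x = T * σ x * T⁻¹)
    (hτ : ∀ i, ∃ T : GL (Fin n) F, ∀ x ∈ H i, r i x = T * τ x * T⁻¹) :
    ∃ T : GL (Fin n) F, ∀ g, τ g = T * σ g * T⁻¹ := by
  classical
  obtain ⟨N, hN, hN0⟩ := D.hH i0
  have hn := D.norm N hN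
  have hr0 : MulOn N (r i0) := (D.mul i0).mono hN0
  have hsp : SpanOn N (r i0) := D.irr N hN hN0
  obtain ⟨T1, hT1⟩ := hσ i0
  obtain ⟨T2, hT2⟩ := hτ i0
  obtain ⟨a, ha⟩ : ∃ a : Γ → GL (Fin n) F, a = fun g => T1 * σ g * T1⁻¹ := ⟨_, rfl⟩
  obtain ⟨b, hb⟩ : ∃ b : Γ → GL (Fin n) F, b = fun g => T2 * τ g * T2⁻¹ := ⟨_, rfl⟩
  have ham : ∀ g h, a (g * h) = a g * a h := by
    intro g h
    rw [ha]
    show T1 * σ (g * h) * T1⁻¹ = T1 * σ g * T1⁻¹ * (T1 * σ h * T1⁻¹)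
    rw [map_mul]
    group
  have hbm : ∀ g h, b (g * h) = b g * b h := by
    intro g h
    rw [hb]
    show T2 * τ (g * h) * T2⁻¹ = T2 * τ g * T2⁻¹ * (T2 * τ h * T2⁻¹)
    rw [map_mul]
    group
  have ha0 : ∀ x ∈ N, a x = r i0 x := fun x hx => by rw [ha, hT1 x (hN0 hx)]
  have hb0 : ∀ x ∈ N, b x = r i0 x := fun x hx => by rw [hb, hT2 x (hN0 hx)]
  have hinv : ∀ (f : Γ → GL (Fin n) F), (∀ g h, f (g * h) = f g * f h) → ∀ g, f g⁻¹ = (f g)⁻¹ := by
    intro f hf g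
    have h1 : f 1 = 1 := by
      have := hf 1 1
      rw [mul_one] at this
      exact (mul_eq_left.mp this.symm)
    have := hf g g⁻¹
    rw [mul_inv_cancel, h1] at this
    exact (eq_inv_of_mul_eq_one_right this.symm)
  have hIt : ∀ (f : Γ → GL (Fin n) F), (∀ g h, f (g * h) = f g * f h) → (∀ x ∈ N, f x = r i0 x) →
      ∀ g, It N (r i0) g (f g) := by
    intro f hf h0 g x hx
    rw [← h0 _ (hn.conj_mem _ hx _), ← h0 _ hx, hf, hf, hinv f hf]
  have hχ : ∀ g, ∃ c : Fˣ, b g = sc c * a g := fun g =>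
    It.unique hsp (hIt a ham ha0 g) (hIt b hbm hb0 g)
  choose c hc using hχ
  have hcu : ∀ g d, b g = sc d * a g → c g = d := by
    intro g d hd
    rw [hc g] at hd
    exact sc_inj hn0 (mul_right_cancel hd)
  let χ : Γ →* Fˣ := MonoidHom.mk' c (by
    intro g h
    apply hcu
    rw [hbm, ham, hc g, hc h, sc_mul]
    have := sc_comm (c h) (a g)
    rw [mul_assoc, ← mul_assoc (a g), ← this]
    simp only [mul_assoc])
  have hda : ∀ g, GeneralLinearGroup.det (a g) = δ g := by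
    intro g
    rw [ha]
    show GeneralLinearGroup.det (T1 * σ g * T1⁻¹) = _
    rw [map_mul, map_mul, map_inv, hσd, mul_comm, inv_mul_cancel_left]
  have hdb : ∀ g, GeneralLinearGroup.det (b g) = δ g := by
    intro g
    rw [hb]
    show GeneralLinearGroup.det (T2 * τ g * T2⁻¹) = _
    rw [map_mul, map_mul, map_inv, hτd, mul_comm, inv_mul_cancel_left]
  have hχN : ∀ x ∈ N, c x = 1 := by
    intro x hx
    apply hcu
    rw [sc_one, one_mul, ha0 x hx, hb0 x hx]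
  have htc : ∀ (T S : GL (Fin n) F), ((T * S * T⁻¹ : GL (Fin n) F) : Matrix (Fin n) (Fin n) F).trace =
      (S : Matrix (Fin n) (Fin n) F).trace := by
    intro T S
    rw [Units.val_mul _ T⁻¹, trace_mul_comm, ← Units.val_mul, inv_mul_cancel_left]
  have hχ1 : ∀ g, χ g = 1 := by
    apply char_unique (k := n) Bas D.hH D.norm D.cop ⟨i0⟩ χ
    · intro g
      show c g ^ n = 1
      have h1 := congrArg GeneralLinearGroup.det (hc g)
      rw [map_mul, det_sc, hda, hdb] at h1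
      exact (mul_eq_right.mp h1.symm)
    · intro i x
      show c x = 1
      obtain ⟨U, hU, hU'⟩ := D.exU hN i
      have hUs : SpanOn U (r i0) := D.irr U hU ((hU'.trans inf_le_left).trans hN0)
      obtain ⟨u, hu, hut⟩ : ∃ u ∈ U, ((a x * r i0 u : GL (Fin n) F) :
          Matrix (Fin n) (Fin n) F).trace ≠ 0 := by
        by_contra hcon
        push Not at hcon
        have h0 := eq_zero_of_trace hUs (a x : Matrix (Fin n) (Fin n) F) (by
          rintro X ⟨u, hu, rfl⟩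
          exact hcon u hu)
        have h1 := congrFun (congrFun (Units.mul_inv (a x)) ⟨0, Nat.pos_of_ne_zero hn0⟩)
          ⟨0, Nat.pos_of_ne_zero hn0⟩
        rw [h0, zero_mul] at h1
        simp at h1
      have huN : u ∈ N := (hU' hu).1
      have hui : u ∈ H i := (hU' hu).2
      rw [← ha0 u huN, ← ham] at hut
      obtain ⟨S1, hS1⟩ := hσ i
      obtain ⟨S2, hS2⟩ := hτ i
      have hxu : (x : Γ) * u ∈ H i := (H i).mul_mem x.2 hui
      have e1 : (a (x * u) : Matrix (Fin n) (Fin n) F).trace =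
          (r i (x * u) : Matrix (Fin n) (Fin n) F).trace := by
        rw [hS1 _ hxu, htc, ha]
        exact htc _ _
      have e2 : (b (x * u) : Matrix (Fin n) (Fin n) F).trace =
          (r i (x * u) : Matrix (Fin n) (Fin n) F).trace := by
        rw [hS2 _ hxu, htc, hb]
        exact htc _ _
      have e3 : c (x * u) = c x := by
        have : χ (x * u) = χ x * χ u := map_mul χ _ _
        have h2 : χ u = 1 := hχN u huN
        rw [h2, mul_one] at this
        exact this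
      rw [hc, trace_sc_mul, e1, e3] at e2
      rw [e1] at hut
      exact Units.ext (mul_right_cancel₀ hut (by rw [e2, Units.val_one, one_mul]))
  refine ⟨T2⁻¹ * T1, fun g => ?_⟩
  have h1 : c g = 1 := hχ1 g
  have h2 := hc g
  rw [h1, sc_one, one_mul, ha, hb] at h2
  have h3 : T2 * τ g * T2⁻¹ = T1 * σ g * T1⁻¹ := h2
  calc τ g = T2⁻¹ * (T2 * τ g * T2⁻¹) * T2 := by group
    _ = T2⁻¹ * (T1 * σ g * T1⁻¹) * T2 := by rw [h3]
    _ = T2⁻¹ * T1 * σ g * (T2⁻¹ * T1)⁻¹ := by group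

end Pool.Agent.H34.OP
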