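import Mathlib

/-!
# Absolutely irreducible representations are determined by their traces
-/

open Matrix

namespace Pool.Agent.H34.OP

variable {F : Type*} [Field F] {n : ℕ}

/-- the matrices commuting with a spanning set are scalar -/
lemma schur {S : Set (Matrix (Fin n) (Fin n) F)} (hS : Submodule.span F S = ⊤)
    (T : Matrix (Fin n) (Fin n) F) (hT : ∀ X ∈ S, T * X = X * T) :
    ∃ c : F, T = scalar (Fin n) c := by
  have key : ∀ X : Matrix (Fin n) (Fin n) F, T * X = X * T := by
    intro X
    have hX : X ∈ Submodule.span F S := by rw [hS]; trivial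
    induction hX using Submodule.span_induction with
    | mem x hx => exact hT x hx
    | zero => simp
    | add x y _ _ hx hy => rw [mul_add, add_mul, hx, hy]
    | smul c x _ hx => rw [mul_smul_comm, smul_mul_assoc, hx]
  obtain ⟨c, hc⟩ := mem_range_scalar_of_commute_single (M := T) (fun i j _ => (key _).symm)
  exact ⟨c, hc.symm⟩

/-- the trace form is nondegenerate on a spanning set -/
lemma eq_zero_of_trace {S : Set (Matrix (Fin n) (Fin n) F)} (hS : Submodule.span F S = ⊤)
    (T : Matrix (Fin n) (Fin n) F) (hT : ∀ X ∈ S, (T * X).trace = 0) : T = 0 := by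
  have key : ∀ X : Matrix (Fin n) (Fin n) F, (T * X).trace = 0 := by
    intro X
    have hX : X ∈ Submodule.span F S := by rw [hS]; trivial
    induction hX using Submodule.span_induction with
    | mem x hx => exact hT x hx
    | zero => simp
    | add x y _ _ hx hy => rw [mul_add, trace_add, hx, hy, add_zero]
    | smul c x _ hx => rw [mul_smul_comm, trace_smul, hx, smul_zero]
  ext i j
  have := key (single j i 1)
  rw [trace_mul_single] at this
  simpa using this

section

variable {U : Type*} [Group U]

/-- linear combinations of the values of a representation -/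
noncomputable def lc (A : U →* GL (Fin n) F) : (U →₀ F) →ₗ[F] Matrix (Fin n) (Fin n) F :=
  Finsupp.linearCombination F (fun u => ((A u : GL (Fin n) F) : Matrix (Fin n) (Fin n) F))

lemma trace_lc (A : U →* GL (Fin n) F) (c : U →₀ F) (u : U) :
    (lc A c * (A u : Matrix (Fin n) (Fin n) F)).trace =
      c.sum fun v a => a * (A (v * u) : Matrix (Fin n) (Fin n) F).trace := by
  rw [lc, Finsupp.linearCombination_apply, Finsupp.sum, Finset.sum_mul, trace_sum]
  apply Finset.sum_congr rfl
  intro v _
  have e : (A (v * u) : Matrix (Fin n) (Fin n) F) = A v * A u := by rw [map_mul]; rfl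
  show _ = c v * (A (v * u) : Matrix (Fin n) (Fin n) F).trace
  rw [smul_mul_assoc, trace_smul, smul_eq_mul, e]

lemma range_lc (A : U →* GL (Fin n) F) :
    LinearMap.range (lc A) =
      Submodule.span F (Set.range fun u => (A u : Matrix (Fin n) (Fin n) F)) :=
  Finsupp.range_linearCombination F

lemma ker_le (A B : U →* GL (Fin n) F)
    (htr : ∀ u, (A u : Matrix (Fin n) (Fin n) F).trace = (B u : Matrix (Fin n) (Fin n) F).trace)
    (hA : Submodule.span F (Set.range fun u => (A u : Matrix (Fin n) (Fin n) F)) = ⊤)
    (c : U →₀ F) (hc : lc B c = 0) : lc A c = 0 := by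
  apply eq_zero_of_trace hA
  rintro _ ⟨u, rfl⟩
  have h := trace_lc B c u
  rw [hc, zero_mul, trace_zero] at h
  rw [trace_lc, h]
  exact Finsupp.sum_congr (fun v _ => by rw [htr])

lemma span_top_of_trace (A B : U →* GL (Fin n) F)
    (htr : ∀ u, (A u : Matrix (Fin n) (Fin n) F).trace = (B u : Matrix (Fin n) (Fin n) F).trace)
    (hA : Submodule.span F (Set.range fun u => (A u : Matrix (Fin n) (Fin n) F)) = ⊤) :
    Submodule.span F (Set.range fun u => (B u : Matrix (Fin n) (Fin n) F)) = ⊤ := by
  have hle : LinearMap.ker (lc B) ≤ LinearMap.ker (lc A) := fun c hc => ker_le A B htr hA c hc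
  rw [← range_lc]
  apply Submodule.eq_top_of_finrank_eq
  apply le_antisymm (Submodule.finrank_le _)
  have h1 : Module.finrank F (LinearMap.range (lc A)) ≤ Module.finrank F (LinearMap.range (lc B)) := by
    let f : ((U →₀ F) ⧸ LinearMap.ker (lc B)) →ₗ[F] Matrix (Fin n) (Fin n) F :=
      (LinearMap.ker (lc B)).liftQ (lc A) hle
    let g : LinearMap.range (lc B) →ₗ[F] Matrix (Fin n) (Fin n) F :=
      f ∘ₗ (lc B).quotKerEquivRange.symm.toLinearMap
    have hg : LinearMap.range g = LinearMap.range (lc A) := by
      rw [LinearMap.range_comp]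
      have : LinearMap.range (lc B).quotKerEquivRange.symm.toLinearMap = ⊤ :=
        LinearEquiv.range _
      rw [this, Submodule.map_top]
      exact Submodule.range_liftQ _ _ _
    rw [← hg]
    exact LinearMap.finrank_range_le g
  rw [range_lc A, hA, finrank_top] at h1
  exact h1

lemma lc_mul (c d : U →₀ F) :
    ∃ e : U →₀ F, ∀ B : U →* GL (Fin n) F, lc B e = lc B c * lc B d := by
  classical
  refine ⟨c.sum fun v a => d.sum fun w b => Finsupp.single (v * w) (a * b), fun B => ?_⟩
  rw [lc, Finsupp.linearCombination_apply _ c, Finsupp.linearCombination_apply _ d]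
  simp only [Finsupp.sum, map_sum, Finsupp.linearCombination_single]
  rw [Finset.sum_mul]
  apply Finset.sum_congr rfl
  intro v _
  rw [Finset.mul_sum]
  apply Finset.sum_congr rfl
  intro w _
  rw [map_mul, smul_mul_smul_comm]
  rfl

/-- **An absolutely irreducible representation is determined by its trace.** -/
theorem tr_iso (A B : U →* GL (Fin n) F)
    (htr : ∀ u, (A u : Matrix (Fin n) (Fin n) F).trace = (B u : Matrix (Fin n) (Fin n) F).trace)
    (hA : Submodule.span F (Set.range fun u => (A u : Matrix (Fin n) (Fin n) F)) = ⊤) :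
    ∃ T : GL (Fin n) F, ∀ u, B u = T * A u * T⁻¹ := by
  classical
  have hB := span_top_of_trace A B htr hA
  have kBA := ker_le A B htr hA
  have kAB := ker_le B A (fun u => (htr u).symm) hB
  have sA : ∀ X, ∃ c, lc A c = X := fun X => by
    have : X ∈ LinearMap.range (lc A) := by rw [range_lc, hA]; trivial
    exact this
  have sB : ∀ X, ∃ c, lc B c = X := fun X => by
    have : X ∈ LinearMap.range (lc B) := by rw [range_lc, hB]; trivial
    exact this
  choose s hs using sA
  have hψ : ∀ c, lc B (s (lc A c)) = lc B c := by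
    intro c
    have : lc A (s (lc A c) - c) = 0 := by rw [map_sub, hs, sub_self]
    have := kAB _ this
    rw [map_sub, sub_eq_zero] at this
    exact this
  let ψ : Matrix (Fin n) (Fin n) F →ₐ[F] Matrix (Fin n) (Fin n) F :=
    AlgHom.ofLinearMap
      { toFun := fun X => lc B (s X)
        map_add' := by
          intro X Y
          rw [← map_add]
          conv_lhs => rw [← hs X, ← hs Y, ← map_add]
          rw [hψ]
        map_smul' := by
          intro a X
          rw [RingHom.id_apply, ← map_smul]
          conv_lhs => rw [← hs X, ← map_smul]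
          rw [hψ] }
      (by
        show lc B (s 1) = 1
        have h1 : ∀ C : U →* GL (Fin n) F, lc C (Finsupp.single 1 1) = 1 := by
          intro C
          rw [lc, Finsupp.linearCombination_single, one_smul, map_one]
          rfl
        calc lc B (s 1) = lc B (s (lc A (Finsupp.single 1 1))) := by rw [h1 A]
          _ = lc B (Finsupp.single 1 1) := hψ _
          _ = 1 := h1 B)
      (by
        intro X Y
        show lc B (s (X * Y)) = lc B (s X) * lc B (s Y)
        obtain ⟨e, he⟩ := lc_mul (n := n) (s X) (s Y)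
        have h1 : X * Y = lc A e := by rw [he, hs, hs]
        rw [h1, hψ, he])
  have hψA : ∀ c, ψ (lc A c) = lc B c := fun c => hψ c
  have hbij : Function.Bijective ψ := by
    constructor
    · rw [injective_iff_map_eq_zero]
      intro X hX
      rw [← hs X] at hX ⊢
      rw [hψA] at hX
      exact kBA _ hX
    · intro Y
      obtain ⟨c, rfl⟩ := sB Y
      exact ⟨lc A c, hψA c⟩
  let Ψ := AlgEquiv.ofBijective ψ hbij
  let L := (toLinAlgEquiv' : Matrix (Fin n) (Fin n) F ≃ₐ[F] _)
  obtain ⟨T, hT⟩ := AlgEquiv.eq_linearEquivConjAlgEquiv ((L.symm.trans Ψ).trans L)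
  let P : Matrix (Fin n) (Fin n) F := L.symm T.toLinearMap
  let P' : Matrix (Fin n) (Fin n) F := L.symm T.symm.toLinearMap
  have hPP' : P * P' = 1 := by
    rw [← map_mul]
    have : (T.toLinearMap * T.symm.toLinearMap) = 1 := by ext x; simp
    rw [this, map_one]
  have hP'P : P' * P = 1 := by
    rw [← map_mul]
    have : (T.symm.toLinearMap * T.toLinearMap) = 1 := by ext x; simp
    rw [this, map_one]
  refine ⟨⟨P, P', hPP', hP'P⟩, fun u => ?_⟩
  apply Units.ext
  show (B u : Matrix (Fin n) (Fin n) F) = P * (A u : Matrix (Fin n) (Fin n) F) * P'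
  have h1 : ψ (A u : Matrix (Fin n) (Fin n) F) = (B u : Matrix (Fin n) (Fin n) F) := by
    have h2 : ∀ C : U →* GL (Fin n) F, lc C (Finsupp.single u 1) = (C u : Matrix _ _ F) := by
      intro C
      rw [lc, Finsupp.linearCombination_single, one_smul]
    rw [← h2 A, hψA, h2]
  have h3 := congrArg (fun f => f (L (A u : Matrix (Fin n) (Fin n) F))) hT
  have h4 : L (ψ (A u : Matrix (Fin n) (Fin n) F)) =
      T.toLinearMap * L (A u : Matrix (Fin n) (Fin n) F) * T.symm.toLinearMap := by
    have e1 : ((L.symm.trans Ψ).trans L) (L (A u : Matrix (Fin n) (Fin n) F)) =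
        L (ψ (A u : Matrix (Fin n) (Fin n) F)) := by
      show L (Ψ (L.symm (L (A u : Matrix (Fin n) (Fin n) F)))) = _
      rw [AlgEquiv.symm_apply_apply]
      rfl
    rw [← e1, h3]
    ext x
    simp [LinearEquiv.conjAlgEquiv_apply]
  rw [← h1]
  apply L.injective
  rw [h4, map_mul, map_mul, AlgEquiv.apply_symm_apply, AlgEquiv.apply_symm_apply]

end

end Pool.Agent.H34.OP
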