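import Pool.Agent.H34.OP.Char
import Pool.Agent.H34.OP.Trace

/-!
# Gluing absolutely irreducible representations with given determinant
-/

open Matrix Subgroup

namespace Pool.Agent.H34.OP

variable {F : Type*} [Field F] {n : ℕ}

/-- scalar matrices -/
noncomputable abbrev sc (c : Fˣ) : GL (Fin n) F := GeneralLinearGroup.scalar (Fin n) c

lemma sc_comm (c : Fˣ) (T : GL (Fin n) F) : sc c * T = T * sc c :=
  GeneralLinearGroup.scalar_commute c T

lemma sc_mul (c d : Fˣ) : (sc (c * d) : GL (Fin n) F) = sc c * sc d :=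
  map_mul (GeneralLinearGroup.scalar (Fin n)) c d

lemma sc_one : (sc (1 : Fˣ) : GL (Fin n) F) = 1 := map_one (GeneralLinearGroup.scalar (Fin n))

lemma sc_inj (hn : n ≠ 0) {c d : Fˣ} (h : (sc c : GL (Fin n) F) = sc d) : c = d := by
  have h1 := congrArg Units.val h
  rw [GeneralLinearGroup.coe_scalar, GeneralLinearGroup.coe_scalar] at h1
  have h2 := congrFun (congrFun h1 ⟨0, Nat.pos_of_ne_zero hn⟩) ⟨0, Nat.pos_of_ne_zero hn⟩
  simp at h2
  exact Units.ext h2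

lemma det_sc (c : Fˣ) : GeneralLinearGroup.det (sc c : GL (Fin n) F) = c ^ n := by
  rw [GeneralLinearGroup.det_scalar, Fintype.card_fin]

lemma trace_sc_mul (c : Fˣ) (T : GL (Fin n) F) :
    ((sc c * T : GL (Fin n) F) : Matrix (Fin n) (Fin n) F).trace =
      c * (T : Matrix (Fin n) (Fin n) F).trace := by
  have : ((sc c * T : GL (Fin n) F) : Matrix (Fin n) (Fin n) F) =
      (c : F) • (T : Matrix (Fin n) (Fin n) F) := by
    rw [Units.val_mul, GeneralLinearGroup.coe_scalar, scalar_apply, ← smul_eq_diagonal_mul]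
  rw [this, trace_smul, smul_eq_mul]

lemma exists_sc {S : Set (Matrix (Fin n) (Fin n) F)} (hS : Submodule.span F S = ⊤)
    (T : GL (Fin n) F)
    (hT : ∀ X ∈ S, (T : Matrix (Fin n) (Fin n) F) * X = X * (T : Matrix (Fin n) (Fin n) F)) :
    ∃ c : Fˣ, T = sc c := by
  obtain ⟨c, hc⟩ := schur hS T hT
  have h1 : T ∈ Subgroup.center (GL (Fin n) F) :=
    GeneralLinearGroup.mem_center_iff_val_mem_range_scalar.mpr ⟨c, hc.symm⟩
  rw [GeneralLinearGroup.center_eq_range_scalar] at h1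
  obtain ⟨d, hd⟩ := h1
  exact ⟨d, hd.symm⟩

variable {Γ : Type*} [Group Γ]

/-- `r` is multiplicative on `N`. -/
def MulOn (N : Subgroup Γ) (r : Γ → GL (Fin n) F) : Prop :=
  ∀ g ∈ N, ∀ h ∈ N, r (g * h) = r g * r h

/-- the values of `r` on `N` span the matrix algebra -/
def SpanOn (N : Subgroup Γ) (r : Γ → GL (Fin n) F) : Prop :=
  Submodule.span F {X | ∃ u ∈ N, X = (r u : Matrix (Fin n) (Fin n) F)} = ⊤

/-- `T` intertwines `r` on `N` with its conjugate by `g` -/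
def It (N : Subgroup Γ) (r : Γ → GL (Fin n) F) (g : Γ) (T : GL (Fin n) F) : Prop :=
  ∀ x ∈ N, r (g * x * g⁻¹) = T * r x * T⁻¹

variable {N M : Subgroup Γ} {r : Γ → GL (Fin n) F}

lemma MulOn.mono (h : MulOn N r) (h' : M ≤ N) : MulOn M r :=
  fun a ha b hb => h a (h' ha) b (h' hb)

lemma MulOn.one (h : MulOn N r) : r 1 = 1 := by
  have h1 := h 1 N.one_mem 1 N.one_mem
  rw [mul_one] at h1
  exact (mul_eq_left.mp h1.symm)

lemma MulOn.inv (h : MulOn N r) {g : Γ} (hg : g ∈ N) : r g⁻¹ = (r g)⁻¹ := by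
  have h1 := h g hg g⁻¹ (N.inv_mem hg)
  rw [mul_inv_cancel, h.one] at h1
  exact (eq_inv_of_mul_eq_one_right h1.symm)

lemma MulOn.conj (h : MulOn N r) (T : GL (Fin n) F) : MulOn N (fun g => T⁻¹ * r g * T) := by
  intro a ha b hb
  show T⁻¹ * r (a * b) * T = T⁻¹ * r a * T * (T⁻¹ * r b * T)
  rw [h a ha b hb]
  group

lemma SpanOn.mono (h : SpanOn M r) (h' : M ≤ N) : SpanOn N r := by
  unfold SpanOn at h ⊢
  rw [eq_top_iff, ← h]
  apply Submodule.span_mono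
  rintro X ⟨u, hu, rfl⟩
  exact ⟨u, h' hu, rfl⟩

lemma It.mono {g : Γ} {T : GL (Fin n) F} (h : It N r g T) (h' : M ≤ N) : It M r g T :=
  fun x hx => h x (h' hx)

lemma It.mul (hN : N.Normal) {g h : Γ} {T S : GL (Fin n) F} (h1 : It N r g T) (h2 : It N r h S) :
    It N r (g * h) (T * S) := by
  intro x hx
  have e : g * h * x * (g * h)⁻¹ = g * (h * x * h⁻¹) * g⁻¹ := by group
  rw [e, h1 _ (hN.conj_mem _ hx _), h2 x hx]
  group

lemma It.one : It N r 1 1 := by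
  intro x _
  simp

lemma It.inv (hN : N.Normal) {g : Γ} {T : GL (Fin n) F} (h : It N r g T) : It N r g⁻¹ T⁻¹ := by
  intro x hx
  have h1 := h _ (hN.conj_mem x hx g⁻¹)
  have e : g * (g⁻¹ * x * g⁻¹⁻¹) * g⁻¹ = x := by group
  rw [e] at h1
  rw [h1]
  group

lemma It.pow (hN : N.Normal) {g : Γ} {T : GL (Fin n) F} (h : It N r g T) (m : ℕ) :
    It N r (g ^ m) (T ^ m) := by
  induction m with
  | zero => simpa using It.one
  | succ m ih =>
    rw [pow_succ, pow_succ]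
    exact ih.mul hN h

lemma It.self (hr : MulOn N r) {g : Γ} (hg : g ∈ N) : It N r g (r g) := by
  intro x hx
  rw [hr _ (N.mul_mem hg hx) _ (N.inv_mem hg), hr _ hg _ hx, hr.inv hg]

lemma It.unique (hs : SpanOn N r) {g : Γ} {T S : GL (Fin n) F} (h1 : It N r g T)
    (h2 : It N r g S) : ∃ c : Fˣ, S = sc c * T := by
  obtain ⟨c, hc⟩ := exists_sc hs (T⁻¹ * S) (by
    rintro X ⟨u, hu, rfl⟩
    have h3 := h1 u hu
    rw [h2 u hu] at h3
    have h4 : T⁻¹ * S * r u = r u * (T⁻¹ * S) := by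
      calc T⁻¹ * S * r u = T⁻¹ * (S * r u * S⁻¹) * S := by group
        _ = T⁻¹ * (T * r u * T⁻¹) * S := by rw [h3]
        _ = r u * (T⁻¹ * S) := by group
    have := congrArg Units.val h4
    simpa using this)
  refine ⟨c, ?_⟩
  rw [sc_comm, ← hc]
  group

/-- equality of traces on a subgroup gives an isomorphism on this subgroup -/
lemma iso_of_trace {r s : Γ → GL (Fin n) F} (hr : MulOn N r) (hs : MulOn N s) (hsp : SpanOn N r)
    (htr : ∀ x ∈ N, (r x : Matrix (Fin n) (Fin n) F).trace = (s x : Matrix (Fin n) (Fin n) F).trace) :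
    ∃ T : GL (Fin n) F, ∀ x ∈ N, s x = T * r x * T⁻¹ := by
  obtain ⟨T, hT⟩ := tr_iso (MonoidHom.mk' (fun x : N => r x) (fun a b => hr a a.2 b b.2))
    (MonoidHom.mk' (fun x : N => s x) (fun a b => hs a a.2 b b.2)) (fun u => htr u u.2) (by
      rw [eq_top_iff, ← hsp]
      apply Submodule.span_mono
      rintro X ⟨u, hu, rfl⟩
      exact ⟨⟨u, hu⟩, rfl⟩)
  exact ⟨T, fun x hx => hT ⟨x, hx⟩⟩

/-- the central extension of `Γ` by roots of unity -/
def Ext (hN : N.Normal) (r : Γ → GL (Fin n) F) (δ : Γ →* Fˣ) : Subgroup (Γ × GL (Fin n) F) where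
  carrier := {p | It N r p.1 p.2 ∧ GeneralLinearGroup.det p.2 = δ p.1}
  one_mem' := ⟨It.one, by simp⟩
  mul_mem' := by
    rintro p q ⟨h1, h2⟩ ⟨h3, h4⟩
    exact ⟨h1.mul hN h3, by rw [Prod.snd_mul, Prod.fst_mul, map_mul, map_mul, h2, h4]⟩
  inv_mem' := by
    rintro p ⟨h1, h2⟩
    exact ⟨h1.inv hN, by rw [Prod.snd_inv, Prod.fst_inv, map_inv, map_inv, h2]⟩

/-- the projection to `Γ` -/
def pr (hN : N.Normal) (r : Γ → GL (Fin n) F) (δ : Γ →* Fˣ) : Ext hN r δ →* Γ :=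
  (MonoidHom.fst Γ (GL (Fin n) F)).comp (Ext hN r δ).subtype

/-- the lift of a subgroup of `N` -/
def Lft (hN : N.Normal) (hr : MulOn N r) (δ : Γ →* Fˣ) (U : Subgroup Γ) :
    Subgroup (Ext hN r δ) where
  carrier := {p | (p.1.1 ∈ U ∧ p.1.1 ∈ N) ∧ p.1.2 = r p.1.1}
  one_mem' := ⟨⟨U.one_mem, N.one_mem⟩, hr.one.symm⟩
  mul_mem' := by
    rintro p q ⟨⟨h1, h1'⟩, h2⟩ ⟨⟨h3, h3'⟩, h4⟩
    refine ⟨⟨U.mul_mem h1 h3, N.mul_mem h1' h3'⟩, ?_⟩
    show p.1.2 * q.1.2 = r (p.1.1 * q.1.1)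
    rw [h2, h4, hr _ h1' _ h3']
  inv_mem' := by
    rintro p ⟨⟨h1, h1'⟩, h2⟩
    refine ⟨⟨U.inv_mem h1, N.inv_mem h1'⟩, ?_⟩
    show p.1.2⁻¹ = r (p.1.1)⁻¹
    rw [h2, hr.inv h1']

lemma Lft_normal (hN : N.Normal) (hr : MulOn N r) (δ : Γ →* Fˣ) {U : Subgroup Γ} (hU : U.Normal) :
    (Lft hN hr δ U).Normal := by
  constructor
  rintro p ⟨⟨h1, h1'⟩, h2⟩ q
  refine ⟨⟨hU.conj_mem _ h1 _, hN.conj_mem _ h1' _⟩, ?_⟩
  show q.1.2 * p.1.2 * q.1.2⁻¹ = r (q.1.1 * p.1.1 * q.1.1⁻¹)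
  rw [q.2.1 _ h1', h2]

end Pool.Agent.H34.OP
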